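import Pool.Agent.Lib_helper84.BT.Pat

set_option autoImplicit false

/-! Two lines through the same path: the kernels coincide. -/

namespace Pool.Agent.Lib_helper84.BT

open MulAction

variable {G V : Type*} [Group G] [MulAction G V] {n : ℕ} {Adj : V → V → Prop}

/-- along forced edges the window stabilizer does not change -/
theorem Fx_ext {k : ℕ} {p : ℤ → V} {e c : ℤ} (he : e ≤ c - k) (d : ℕ)
    (h : ∀ i, c - k ≤ i → i + k + 1 < c + 1 + d → Lk G k p i) :
    Fx G p e (c + 1) = Fx G p e (c + 1 + d) := by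
  induction d with
  | zero => simp
  | succ d ih =>
    rw [ih (fun i h1 h2 => h i h1 (by push_cast; omega))]
    rw [show c + 1 + ((d + 1 : ℕ) : ℤ) = c + 1 + d + 1 by push_cast; ring,
      Fx_right p (by omega)]
    refine (inf_eq_left.2 ?_).symm
    have h1 := h (c - k + d) (by omega) (by push_cast; omega)
    unfold Lk at h1
    have h2 : Fx G p e (c + 1 + d) ≤ Fx G p (c - k + d) (c - k + d + k + 1) :=
      Fx_mono p (by omega) (by omega)
    rw [h1] at h2
    intro g hg
    have := h2 hg (c + 1 + d + 1) (by omega) (by omega)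
    exact this

theorem Fx_ext' {k : ℕ} {p : ℤ → V} {e c b : ℤ} (he : e ≤ c - k) (hb : c + 1 ≤ b)
    (h : ∀ i, c - k ≤ i → i + k + 1 < b → Lk G k p i) :
    Fx G p e (c + 1) = Fx G p e b := by
  obtain ⟨d, rfl⟩ : ∃ d : ℕ, b = c + 1 + d := ⟨(b - (c + 1)).toNat, by omega⟩
  exact Fx_ext he d h

theorem two_mul_lt_factorial {n : ℕ} (hn : 8 ≤ n) : 2 * n < (n - 1).factorial := by
  obtain ⟨m, rfl⟩ : ∃ m, n = m + 8 := ⟨n - 8, by omega⟩
  have h : ∀ m : ℕ, 2 * (m + 8) < (m + 7).factorial := by
    intro m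
    induction m with
    | zero => decide
    | succ m ih =>
      rw [show m + 1 + 7 = (m + 7) + 1 by ring, Nat.factorial_succ]
      have : 2 ≤ m + 7 + 1 := by omega
      have h2 : 2 * (m + 7).factorial ≤ (m + 7 + 1) * (m + 7).factorial :=
        Nat.mul_le_mul_right _ this
      omega
  exact h m

namespace Fail

variable {k : ℕ} (H : Fail G n Adj k)

include H

omit H in
theorem pat_end {y : ℕ} {r : ℕ} {p : ℤ → V} {a b c : ℤ}
    (hp : Pat G Adj k y p a (r + 1)) (hb : b = a + k + 1 + (r + 1 : ℕ) * y) (hc : b = c + y) :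
    ∀ i, c - k ≤ i → i + k + 1 < b → Lk G k p i := by
  intro i h1 h2
  have hc' : c = a + k + 1 + r * y := by
    have : ((r + 1 : ℕ) : ℤ) * y = r * y + y := by push_cast; ring
    omega
  have hry : (0 : ℤ) ≤ r * y := by positivity
  have e : ((r + 1 : ℕ) : ℤ) * y = r * y + y := by push_cast; ring
  rw [hp.2 i (by omega) (by omega)]
  intro hd
  have h3 : (y : ℤ) ∣ (i - a) - r * y := dvd_sub hd (Dvd.intro_left _ rfl)
  have := Int.le_of_dvd (by omega) h3
  omega

theorem B1aux {y : ℕ} (hy : 0 < y) {r : ℕ} (hr : 0 < r) (hnf : ∀ r' < r + 1, NonFail G Adj k y r')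
    (hf : ¬ NonFail G Adj k y (r + 1)) (p q : ℤ → V) (a b c : ℤ)
    (hp : Pat G Adj k y p a (r + 1)) (hq : Pat G Adj k y q a (r + 1))
    (hb : b = a + k + 1 + (r + 1 : ℕ) * y) (hc : b = c + y)
    (hpq : ∀ i, i ≤ c → p i = q i) (hne : p (c + 1) ≠ q (c + 1)) :
    Big (Fx G p (a + 1) b ⊓ stabilizer G (q (c + 1))) (SO G Adj k p b) := by
  have hy' : (1 : ℤ) ≤ y := by exact_mod_cast hy
  have hry : (1 : ℤ) ≤ r * y := by
    have : 0 < r * y := Nat.mul_pos hr hy
    exact_mod_cast this
  have e : ((r + 1 : ℕ) : ℤ) * y = r * y + y := by push_cast; ring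
  have hc' : c = a + k + 1 + r * y := by omega
  obtain ⟨hbig, _⟩ := H.L_lemma hy hnf hf p a b hp hb
  have hpath : Path Adj p a b := by rw [hb]; exact hp.1
  have hpathq : Path Adj q a b := by rw [hb]; exact hq.1
  have hpb : Path Adj p (b - k - 1) b := hpath.mono (by omega) le_rfl
  have hpc : Path Adj p (c - k - 1) c := hpath.mono (by omega) (by omega)
  have hqm : q (c + 1) ∈ SO G Adj k p c := by
    rw [SO_congr (p := p) (q := q) (fun i h1 h2 => hpq i h2)]
    rw [H.mem_SO_iff q c (hpathq.mono (by omega) (by omega))]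
    rw [hq.2 _ (by omega) (by omega)]
    intro h
    apply h
    rw [show c - k - 1 - a = r * y by rw [hc']; ring]
    exact Dvd.intro_left _ rfl
  have hpm : p (c + 1) ∈ SO G Adj k p c := by
    rw [H.mem_SO_iff p c (hpath.mono (by omega) (by omega))]
    rw [hp.2 _ (by omega) (by omega)]
    intro h
    apply h
    rw [show c - k - 1 - a = r * y by rw [hc']; ring]
    exact Dvd.intro_left _ rfl
  have hInv : Inv (Fx G p (a + 1) b) (SO G Adj k p c \ {p (c + 1)}) := by
    intro g hg v hv
    refine ⟨H.SO_inv p c hpc (Fx_mono p (by omega) (by omega)) g hg v hv.1, ?_⟩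
    intro h
    rw [Set.mem_singleton_iff] at h
    apply hv.2
    rw [Set.mem_singleton_iff]
    have h3 : g • p (c + 1) = p (c + 1) := hg (c + 1) (by omega) (by omega)
    rw [← h3] at h
    exact MulAction.injective g h
  have hmem : q (c + 1) ∈ SO G Adj k p c \ {p (c + 1)} := ⟨hqm, fun h => hne h.symm⟩
  have hidx := relIndex_stab ((H.SO_fin p c).subset Set.sdiff_subset) hInv hmem
  rw [Set.ncard_sdiff_singleton_of_mem hpm, H.SO_ncard p c hpc] at hidx
  refine big_of_relIndex_lt (H.SO_five p b hpb) (H.SO_inv p b hpb (Fx_mono p (by omega) le_rfl))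
    hbig inf_le_left hidx.1 ?_
  rw [H.SO_ncard p b hpb]
  have := H.hn
  omega

/-- statement (B1) for two pattern paths -/
theorem B1core {y : ℕ} (hy : 0 < y) {r : ℕ} (hnf : ∀ r' < r + 1, NonFail G Adj k y r')
    (hf : ¬ NonFail G Adj k y (r + 1)) (p q : ℤ → V) (a b c : ℤ)
    (hp : Pat G Adj k y p a (r + 1)) (hq : Pat G Adj k y q a (r + 1))
    (hb : b = a + k + 1 + (r + 1 : ℕ) * y) (hc : b = c + y)
    (hpq : ∀ i, i ≤ c → p i = q i) (hne : p (c + 1) ≠ q (c + 1)) :
    ∀ g ∈ Fx G p (c - k) (c + 1) ⊓ stabilizer G (q (c + 1)),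
      (Fixes g (Out Adj (p b)) ↔ Fixes g (Out Adj (q b))) := by
  have hy' : (1 : ℤ) ≤ y := by exact_mod_cast hy
  have hry : (0 : ℤ) ≤ r * y := by positivity
  have e : ((r + 1 : ℕ) : ℤ) * y = r * y + y := by push_cast; ring
  have hc' : c = a + k + 1 + r * y := by omega
  have hpath : Path Adj p a b := by rw [hb]; exact hp.1
  have hpathq : Path Adj q a b := by rw [hb]; exact hq.1
  have hpb : Path Adj p (b - k - 1) b := hpath.mono (by omega) le_rfl
  have hqb : Path Adj q (b - k - 1) b := hpathq.mono (by omega) le_rfl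
  have hn := H.hn
  set S := SO G Adj k p b with hS
  set S' := SO G Adj k q b with hS'
  have hcS : S.ncard = n - 1 := H.SO_ncard p b hpb
  have hcS' : S'.ncard = n - 1 := H.SO_ncard q b hqb
  have hLkp := pat_end hp hb hc
  have hLkq := pat_end hq hb hc
  rcases Nat.eq_zero_or_pos r with hr0 | hr
  · subst hr0
    have hca : c - k = a + 1 := by rw [hc']; push_cast; ring
    intro g hg
    have h1 := (H.L_lemma hy hnf hf p a b hp hb).2
    have h2 := (H.L_lemma hy hnf hf q a b hq hb).2
    have hg1 : g ∈ Fx G p (a + 1) b := by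
      have := hg.1
      rw [Fx_ext' le_rfl (by omega) hLkp, hca] at this
      exact this
    have hg2 : g ∈ Fx G q (a + 1) b := by
      have h3 : g ∈ Fx G q (c - k) (c + 1) := by
        rw [Fx_right q (by omega), ← Fx_congr (p := p) (q := q) (fun i _ h2 => hpq i h2)]
        exact ⟨Fx_mono p le_rfl (by omega) hg.1, hg.2⟩
      rw [Fx_ext' le_rfl (by omega) hLkq, hca] at h3
      exact h3
    rw [← h1 g hg1, ← h2 g hg2, hpq (a + 1) (by omega)]
  have hbp := H.B1aux hy hr hnf hf p q a b c hp hq hb hc hpq hne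
  have hbq := H.B1aux hy hr hnf hf q p a b c hq hp hb hc (fun i h => (hpq i h).symm) hne.symm
  -- the chain
  let A : ℤ → Subgroup G := fun e => Fx G p e (c + 1) ⊓ stabilizer G (q (c + 1))
  have hAq : ∀ e, e ≤ c → A e = Fx G q e (c + 1) ⊓ stabilizer G (p (c + 1)) := by
    intro e he
    show Fx G p e (c + 1) ⊓ stabilizer G (q (c + 1)) = _
    rw [Fx_right p (by omega), Fx_right q (by omega),
      Fx_congr (p := p) (q := q) (a := e) (b := c) (fun i _ h2 => hpq i h2)]
    rw [inf_assoc, inf_assoc, inf_comm (stabilizer G (p (c + 1)))]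
  have hAp : ∀ e, e ≤ c - k → A e = Fx G p e b ⊓ stabilizer G (q (c + 1)) := by
    intro e he
    show Fx G p e (c + 1) ⊓ stabilizer G (q (c + 1)) = _
    rw [Fx_ext' he (by omega) hLkp]
  have hAq' : ∀ e, e ≤ c - k → A e = Fx G q e b ⊓ stabilizer G (p (c + 1)) := by
    intro e he
    rw [hAq e (by omega), Fx_ext' he (by omega) hLkq]
  have hAlep : ∀ e, e ≤ c - k → A e ≤ Fx G p (b - k - 1) b := by
    intro e he
    rw [hAp e he]
    exact inf_le_left.trans (Fx_mono p (by omega) le_rfl)
  have hAleq : ∀ e, e ≤ c - k → A e ≤ Fx G q (b - k - 1) b := by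
    intro e he
    rw [hAq' e he]
    exact inf_le_left.trans (Fx_mono q (by omega) le_rfl)
  have hAmono : ∀ e e', e ≤ e' → A e ≤ A e' := by
    intro e e' h
    exact inf_le_inf_right _ (Fx_mono p h le_rfl)
  have hbigS : ∀ e, a + 1 ≤ e → Big (A e) S := by
    intro e he
    refine Big_mono (hAmono (a + 1) e he) ?_
    rw [hAp (a + 1) (by omega)]
    exact hbp
  have hbigS' : ∀ e, a + 1 ≤ e → Big (A e) S' := by
    intro e he
    refine Big_mono (hAmono (a + 1) e he) ?_
    rw [hAq' (a + 1) (by omega)]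
    exact hbq
  have hinvS : ∀ e, e ≤ c - k → Inv (A e) S := fun e he => H.SO_inv p b hpb (hAlep e he)
  have hinvS' : ∀ e, e ≤ c - k → Inv (A e) S' := fun e he => H.SO_inv q b hqb (hAleq e he)
  -- the last one is not rich
  have hlast : ¬ Rich (A (a + 1)) S S' := by
    apply not_rich_of_fixes (by rw [hcS]; omega)
    intro g hg hfix
    have h1 := H.L_lemma hy hnf hf p a b hp hb
    have h2 := H.L_lemma hy hnf hf q a b hq hb
    have hg1 : g ∈ Fx G p (a + 1) b := by
      rw [hAp (a + 1) (by omega)] at hg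
      exact hg.1
    have hg2 : g ∈ Fx G q (a + 1) b := by
      rw [hAq' (a + 1) (by omega)] at hg
      exact hg.1
    rw [H.fixes_SO_iff q b hqb (hAleq _ (by omega) hg), ← h2.2 g hg2,
      ← hpq (a + 1) (by omega), h1.2 g hg1] at hfix
    exact (H.fixes_SO_iff p b hpb (hAlep _ (by omega) hg)).2 hfix
  have hstep : ∀ e, a + 1 ≤ e → e + 1 ≤ c - k → Rich (A (e + 1)) S S' → Rich (A e) S S' := by
    intro e he he' hr
    have h1 : A e = A (e + 1) ⊓ stabilizer G (p e) := by
      show Fx G p e (c + 1) ⊓ stabilizer G (q (c + 1)) =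
        Fx G p (e + 1) (c + 1) ⊓ stabilizer G (q (c + 1)) ⊓ stabilizer G (p e)
      rw [Fx_left p (by omega), inf_right_comm]
    have hinvI : Inv (A (e + 1)) (In Adj (p (e + 1))) :=
      H.inv_In (inf_le_left.trans (H.Fx_le_stab p le_rfl (by omega)))
    have hmem : p e ∈ In Adj (p (e + 1)) := hpath e (by omega) (by omega)
    have hidx := relIndex_stab (H.fin_In _) hinvI hmem
    rw [← h1, H.inn] at hidx
    refine rich_of_relIndex (by rw [hcS]; omega) (by rw [hcS, hcS'])
      (hinvS (e + 1) he') (hinvS' (e + 1) he') hr (hAmono e (e + 1) (by omega))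
      hidx.1 ?_ (hbigS e he) (hbigS' e he)
    rw [hcS]
    have := two_mul_lt_factorial hn
    omega
  have hchain : ∀ j : ℕ, a + 1 ≤ c - k - j → Rich (A (c - k)) S S' → Rich (A (c - k - j)) S S' := by
    intro j
    induction j with
    | zero =>
      intro _ h
      rwa [show c - k - ((0 : ℕ) : ℤ) = c - k by simp]
    | succ j ih =>
      intro h1 h2
      push_cast at h1
      have := ih (by omega) h2
      rw [show c - k - ((j + 1 : ℕ) : ℤ) = c - k - j - 1 by push_cast; ring]
      refine hstep _ (by omega) (by omega) ?_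
      rwa [show c - (k : ℤ) - j - 1 + 1 = c - k - j by ring]
  have hnr : ¬ Rich (A (c - k)) S S' := by
    intro hr
    apply hlast
    have h1 := hchain ((c - k - (a + 1)).toNat) (by omega) hr
    rwa [show c - k - (((c - k - (a + 1)).toNat : ℕ) : ℤ) = a + 1 by omega] at h1
  intro g hg
  have hg' : g ∈ A (c - k) := hg
  have h1 := fixes_iff_of_not_rich (by rw [hcS]; omega) (by rw [hcS']; omega)
    (hinvS (c - k) le_rfl) (hinvS' (c - k) le_rfl) (hbigS (c - k) (by omega))
    (hbigS' (c - k) (by omega)) hnr g hg'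
  rwa [H.fixes_SO_iff p b hpb (hAlep _ le_rfl hg'),
    H.fixes_SO_iff q b hqb (hAleq _ le_rfl hg')] at h1

/-- replacing the end of a pattern path -/
theorem splice {y : ℕ} (hy : 0 < y) {r : ℕ} (x p : ℤ → V) (a b c' c : ℤ) (h : G)
    (hx : Pat G Adj k y x a (r + 1)) (hb : b = a + k + 1 + (r + 1 : ℕ) * y) (hc : b = c' + y)
    (hp : Path Adj p (c - k) (c + y))
    (hL : ∀ i, c - k ≤ i → i + k + 1 < c + y → Lk G k p i)
    (h1 : ∀ i, c - k ≤ i → i ≤ c → h • p i = x (i + (c' - c)))
    (h2 : h • p (c + 1) ∈ SO G Adj k x c') :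
    Pat G Adj k y (fun i => if i ≤ c' then x i else h • p (i - (c' - c))) a (r + 1) := by
  have hy' : (1 : ℤ) ≤ y := by exact_mod_cast hy
  have hry : (0 : ℤ) ≤ r * y := by positivity
  have e : ((r + 1 : ℕ) : ℤ) * y = r * y + y := by push_cast; ring
  have hc' : c' = a + k + 1 + r * y := by omega
  set P : ℤ → V := fun i => if i ≤ c' then x i else h • p (i - (c' - c)) with hP
  have hP1 : ∀ i, i ≤ c' → P i = x i := fun i hi => if_pos hi
  have hP2 : ∀ i, c' - k ≤ i → P i = h • p (i - (c' - c)) := by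
    intro i hi
    by_cases hic : i ≤ c'
    · rw [hP1 i hic, h1 (i - (c' - c)) (by omega) (by omega)]
      congr 1
      ring
    · exact if_neg hic
  have hxpath : Path Adj x a b := by rw [hb]; exact hx.1
  have hPpath : Path Adj P a b := by
    intro i hi hj
    rcases lt_or_ge i c' with hlt | hge
    · rw [hP1 i hlt.le, hP1 (i + 1) (by omega)]
      exact hxpath i hi hj
    · rw [hP2 i (by omega), hP2 (i + 1) (by omega)]
      apply H.adj
      rw [show i + 1 - (c' - c) = i - (c' - c) + 1 by ring]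
      exact hp _ (by omega) (by omega)
  refine ⟨by rw [← hb]; exact hPpath, ?_⟩
  intro i hi hj
  rcases lt_trichotomy i (c' - k - 1) with hlt | heq | hgt
  · rw [Lk_congr (p := P) (q := x) (fun j _ h4 => hP1 j (by omega))]
    exact hx.2 i hi hj
  · subst heq
    have h3 : ¬ Lk G k P (c' - k - 1) := by
      rw [← H.mem_SO_iff P c' (hPpath.mono (by omega) (by omega))]
      rw [SO_congr (p := P) (q := x) (fun j _ h4 => hP1 j h4)]
      rw [hP2 (c' + 1) (by omega), show c' + 1 - (c' - c) = c + 1 by ring]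
      exact h2
    have h4 : (y : ℤ) ∣ (c' - k - 1 - a) := by
      rw [show c' - k - 1 - a = r * y by rw [hc']; ring]
      exact Dvd.intro_left _ rfl
    constructor
    · intro h5
      exact absurd h5 h3
    · intro h5
      exact absurd h4 h5
  · have h3 : Lk G k P i := by
      have h5 := Lk_conj (G := G) (k := k) (p := p) (q := P) (j := i - (c' - c)) (c := c' - c) h
        (by
          intro j h6 h7
          rw [hP2 (j + (c' - c)) (by omega)]
          congr 2
          ring)
      rw [show i - (c' - c) + (c' - c) = i by ring] at h5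
      rw [← h5]
      exact hL _ (by omega) (by omega)
    have h4 : ¬ (y : ℤ) ∣ (i - a) := by
      intro hd
      have h5 : (y : ℤ) ∣ (i - a) - r * y := dvd_sub hd (Dvd.intro_left _ rfl)
      have := Int.le_of_dvd (by omega) h5
      omega
    exact ⟨fun _ => h4, fun _ => h3⟩

/-- statement (B1) of the paper proof -/
theorem B1 {y : ℕ} (hy : 0 < y) (hf : ∃ r, ¬ NonFail G Adj k y r) (p q : ℤ → V) (c : ℤ)
    (hp : Path Adj p (c - k) (c + y)) (hq : Path Adj q (c - k) (c + y))
    (hpq : ∀ i, c - k ≤ i → i ≤ c → p i = q i) (hne : p (c + 1) ≠ q (c + 1))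
    (hLp : ∀ i, c - k ≤ i → i + k + 1 < c + y → Lk G k p i)
    (hLq : ∀ i, c - k ≤ i → i + k + 1 < c + y → Lk G k q i) :
    ∀ g ∈ Fx G p (c - k) (c + 1) ⊓ stabilizer G (q (c + 1)),
      (Fixes g (Out Adj (p (c + y))) ↔ Fixes g (Out Adj (q (c + y)))) := by
  classical
  have hy' : (1 : ℤ) ≤ y := by exact_mod_cast hy
  have hn := H.hn
  obtain ⟨r, hr1, hr2⟩ : ∃ r, (∀ r' < r + 1, NonFail G Adj k y r') ∧
      ¬ NonFail G Adj k y (r + 1) := by
    have h0 : Nat.find hf ≠ 0 := by
      intro h
      have := Nat.find_spec hf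
      rw [h] at this
      exact this (H.nonFail_zero y)
    obtain ⟨r, hr⟩ := Nat.exists_eq_succ_of_ne_zero h0
    refine ⟨r, ?_, ?_⟩
    · intro r' hr'
      have := Nat.find_min hf (m := r') (by omega)
      simpa using this
    · have := Nat.find_spec hf
      rw [hr] at this
      exact this
  have hf' := hr2
  unfold NonFail at hf'
  push Not at hf'
  obtain ⟨x, a, hx, _⟩ := hf'
  have e : ((r + 1 : ℕ) : ℤ) * y = r * y + y := by push_cast; ring
  have hry : (0 : ℤ) ≤ r * y := by positivity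
  obtain ⟨b, hb⟩ : ∃ b : ℤ, b = a + k + 1 + (r + 1 : ℕ) * y := ⟨_, rfl⟩
  obtain ⟨c', hc⟩ : ∃ c' : ℤ, b = c' + y := ⟨b - y, by ring⟩
  have hc' : c' = a + k + 1 + r * y := by omega
  have hxpath : Path Adj x a b := by rw [hb]; exact hx.1
  -- transport the k-path
  obtain ⟨g0, hg0⟩ := H.PT_le k (by omega) p x (c - k) (c' - k)
    (hp.mono le_rfl (by omega)) (hxpath.mono (by omega) (by omega))
  have hg0' : ∀ i, c - k ≤ i → i ≤ c → g0 • p i = x (i + (c' - c)) := by
    intro i h1 h2
    have := hg0 (i - (c - k)) (by omega) (by omega)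
    rw [show c - k + (i - (c - k)) = i by ring,
      show c' - k + (i - (c - k)) = i + (c' - c) by ring] at this
    exact this
  -- two elements of the side set
  have hpc' : Path Adj x (c' - k - 1) c' := hxpath.mono (by omega) (by omega)
  have hcard : (SO G Adj k x c').ncard = n - 1 := H.SO_ncard x c' hpc'
  obtain ⟨u, hu, _, _, _⟩ := exists_fourth (S := SO G Adj k x c') (by omega)
    (x c') (x c') (x c')
  obtain ⟨u', hu', hne', _, _⟩ := exists_fourth (S := SO G Adj k x c') (by omega) u u u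
  have hbig : Big (Fx G x (c' - k) (c' - k + k)) (Out Adj (x (c' - k + k))) :=
    H.good k le_rfl x (c' - k) (hxpath.mono (by omega) (by omega))
  rw [show c' - (k : ℤ) + k = c' by ring] at hbig
  have hinv : Inv (Fx G x (c' - k) c') (Out Adj (x c')) :=
    H.inv_Out (H.Fx_le_stab x (by omega) le_rfl)
  have hgc : g0 • p c = x c' := by
    rw [hg0' c (by omega) le_rfl]
    congr 1
    ring
  have hgq : g0 • q c = x c' := by
    rw [← hpq c (by omega) le_rfl, hgc]
  have hm1 : g0 • p (c + 1) ∈ Out Adj (x c') := by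
    rw [← hgc]
    exact H.adj g0 _ _ (hp c (by omega) (by omega))
  have hm2 : g0 • q (c + 1) ∈ Out Adj (x c') := by
    rw [← hgq]
    exact H.adj g0 _ _ (hq c (by omega) (by omega))
  obtain ⟨z, hz, hz1, hz2⟩ := hbig.tr2 hinv (H.four_Out _) hm1 hm2 hu.1 hu'.1
    (fun h => hne (MulAction.injective g0 h)) hne'.symm
  set h := z * g0 with hh
  have hhp : ∀ i, c - k ≤ i → i ≤ c → h • p i = x (i + (c' - c)) := by
    intro i h1 h2
    rw [hh, mul_smul, hg0' i h1 h2]
    exact hz _ (by omega) (by omega)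
  have hhq : ∀ i, c - k ≤ i → i ≤ c → h • q i = x (i + (c' - c)) := by
    intro i h1 h2
    rw [← hpq i h1 h2]
    exact hhp i h1 h2
  have hhp1 : h • p (c + 1) = u := by rw [hh, mul_smul, hz1]
  have hhq1 : h • q (c + 1) = u' := by rw [hh, mul_smul, hz2]
  have hP := H.splice hy x p a b c' c h hx hb hc hp hLp hhp (by rw [hhp1]; exact hu)
  have hQ := H.splice hy x q a b c' c h hx hb hc hq hLq hhq (by rw [hhq1]; exact hu')
  set P : ℤ → V := fun i => if i ≤ c' then x i else h • p (i - (c' - c)) with hPdef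
  set Q : ℤ → V := fun i => if i ≤ c' then x i else h • q (i - (c' - c)) with hQdef
  have hP1 : ∀ i, i ≤ c' → P i = x i := fun i hi => if_pos hi
  have hQ1 : ∀ i, i ≤ c' → Q i = x i := fun i hi => if_pos hi
  have hP2 : ∀ i, c' - k ≤ i → P i = h • p (i - (c' - c)) := by
    intro i hi
    by_cases hic : i ≤ c'
    · rw [hP1 i hic, hhp (i - (c' - c)) (by omega) (by omega)]
      congr 1
      ring
    · exact if_neg hic
  have hQ2 : ∀ i, c' - k ≤ i → Q i = h • q (i - (c' - c)) := by
    intro i hi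
    by_cases hic : i ≤ c'
    · rw [hQ1 i hic, hhq (i - (c' - c)) (by omega) (by omega)]
      congr 1
      ring
    · exact if_neg hic
  have hPc : P (c' + 1) = u := by
    rw [hP2 _ (by omega), show c' + 1 - (c' - c) = c + 1 by ring, hhp1]
  have hQc : Q (c' + 1) = u' := by
    rw [hQ2 _ (by omega), show c' + 1 - (c' - c) = c + 1 by ring, hhq1]
  have hPb : P b = h • p (c + y) := by
    rw [hP2 _ (by omega)]
    congr 2
    omega
  have hQb : Q b = h • q (c + y) := by
    rw [hQ2 _ (by omega)]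
    congr 2
    omega
  have core := H.B1core hy hr1 hr2 P Q a b c' hP hQ hb hc
    (fun i hi => by rw [hP1 i hi, hQ1 i hi]) (by rw [hPc, hQc]; exact hne'.symm)
  intro g hg
  have hconj : h⁻¹ * (h * g * h⁻¹) * h = g := by group
  have hg' : h * g * h⁻¹ ∈ Fx G P (c' - k) (c' + 1) ⊓ stabilizer G (Q (c' + 1)) := by
    constructor
    · have h3 := mem_Fx_conj (G := G) (p := p) (q := P) (a := c - k) (b := c + 1)
        (c := c' - c) h (by
          intro i h4 h5
          rw [hP2 _ (by omega)]
          congr 2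
          ring) (h * g * h⁻¹)
      rw [hconj, show c - k + (c' - c) = c' - k by ring,
        show c + 1 + (c' - c) = c' + 1 by ring] at h3
      exact h3.2 hg.1
    · show (h * g * h⁻¹) • Q (c' + 1) = Q (c' + 1)
      rw [hQc, ← hhq1, mul_smul, mul_smul, inv_smul_smul]
      have h3 : g • q (c + 1) = q (c + 1) := hg.2
      rw [h3]
  have h3 := core _ hg'
  have h4 : Fixes (h * g * h⁻¹) (Out Adj (P b)) ↔ Fixes g (Out Adj (p (c + y))) := by
    have := Fixes_conj (g := h) (x := h * g * h⁻¹) (S := Out Adj (p (c + y)))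
      (S' := Out Adj (P b)) (by
        intro v
        rw [hPb]
        have := H.mem_Out h (p (c + y)) (h⁻¹ • v)
        rw [smul_inv_smul] at this
        exact this)
    rwa [hconj] at this
  have h5 : Fixes (h * g * h⁻¹) (Out Adj (Q b)) ↔ Fixes g (Out Adj (q (c + y))) := by
    have := Fixes_conj (g := h) (x := h * g * h⁻¹) (S := Out Adj (q (c + y)))
      (S' := Out Adj (Q b)) (by
        intro v
        rw [hQb]
        have := H.mem_Out h (q (c + y)) (h⁻¹ • v)
        rw [smul_inv_smul] at this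
        exact this)
    rwa [hconj] at this
  rw [← h4, ← h5]
  exact h3

end Fail

end Pool.Agent.Lib_helper84.BT
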