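import Pool.Agent.Lib_helper84.BT.Ext

set_option autoImplicit false

/-! Statement (B3): periodicity along a line. -/

namespace Pool.Agent.Lib_helper84.BT

open MulAction

variable {G V : Type*} [Group G] [MulAction G V] {n : ℕ} {Adj : V → V → Prop}

namespace Fail

variable {k : ℕ} (H : Fail G n Adj k)

include H

/-- (L) for a path with turns only, without the first vertex -/
theorem L_turns {r : ℕ} (hnf : ∀ r' < r + 1, NonFail G Adj k 1 r')
    (hf : ¬ NonFail G Adj k 1 (r + 1)) (p : ℤ → V) (a b : ℤ)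
    (hb : b = a + k + 1 + (r + 1 : ℕ)) (hp : Path Adj p (a + 1) b)
    (hL : ∀ i, a + 1 ≤ i → i < a + (r + 1 : ℕ) → ¬ Lk G k p i) :
    Big (Fx G p (a + 1) b) (SO G Adj k p b) ∧
    (∀ g ∈ Fx G p (a + 1) b, (Fixes g (In Adj (p (a + 1))) ↔ Fixes g (Out Adj (p b)))) := by
  classical
  obtain ⟨v, hv1, hv2⟩ := H.exists_prev p a (hp.mono le_rfl (by push_cast at hb; omega))
  set q := Function.update p a v with hq
  have hqe : ∀ i, a + 1 ≤ i → q i = p i := by
    intro i hi
    rw [hq, Function.update_of_ne (by omega)]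
  have hqa : q a = v := by rw [hq, Function.update_self]
  have hpath : Path Adj q a b := by
    intro i h1 h2
    rcases eq_or_lt_of_le h1 with rfl | h3
    · rw [hqa, hqe _ le_rfl]
      exact hv1
    · rw [hqe i (by omega), hqe (i + 1) (by omega)]
      exact hp i (by omega) h2
  have hpat : Pat G Adj k 1 q a (r + 1) := by
    refine ⟨by
      rw [show a + k + 1 + ((r + 1 : ℕ) : ℤ) * ((1 : ℕ) : ℤ) = b by rw [hb]; simp]
      exact hpath, ?_⟩
    intro i h1 h2
    have h2' : i < a + (r + 1 : ℕ) := by simpa using h2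
    have h3 : ¬ Lk G k q i := by
      rcases eq_or_lt_of_le h1 with rfl | h3
      · exact hv2
      · rw [Lk_congr (p := q) (q := p) (fun j h4 _ => hqe j (by omega))]
        exact hL i (by omega) h2'
    constructor
    · intro h
      exact absurd h h3
    · intro h
      exfalso
      apply h
      simp
  have h1 := H.L_lemma one_pos hnf hf q a b hpat (by rw [hb]; simp)
  rw [Fx_congr (p := q) (q := p) (a := a + 1) (fun i h1 _ => hqe i h1),
    SO_congr (p := q) (q := p) (b := b) (fun i h1 _ => hqe i (by push_cast at hb; omega)),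
    hqe (a + 1) le_rfl, hqe b (by push_cast at hb; omega)] at h1
  exact h1

theorem claimS {r : ℕ} (hnf : ∀ r' < r + 1, NonFail G Adj k 1 r')
    (hf : ¬ NonFail G Adj k 1 (r + 1))
    (hall : ∀ y : ℕ, 0 < y → ∃ r, ¬ NonFail G Adj k y r) (j : ℕ) (hj : j ≤ r) :
    ∀ (p : ℤ → V) (a b : ℤ), b = a + k + 1 + (r + 1 : ℕ) → Path Adj p (a + 1) b →
      (∀ i, a + 1 ≤ i → i < a + (r + 1 : ℕ) - j → ¬ Lk G k p i) →
      (∀ i, a + (r + 1 : ℕ) - j ≤ i → i < a + (r + 1 : ℕ) → Lk G k p i) →
      ∀ g ∈ Fx G p (a + 1) b, (Fixes g (In Adj (p (a + 1))) ↔ Fixes g (Out Adj (p b))) := by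
  classical
  induction j with
  | zero =>
    intro p a b hb hp h1 _
    exact (H.L_turns hnf hf p a b hb hp (fun i h2 h3 => h1 i h2 (by simpa using h3))).2
  | succ j ih =>
    intro p a b hb hp hturn hforced
    have ih' := ih (by omega)
    have hn := H.hn
    push_cast at hturn hforced
    have hjr : (j : ℤ) + 1 ≤ r := by exact_mod_cast hj
    have hb' : b = a + k + 1 + (r + 1) := by rw [hb]; push_cast; ring
    obtain ⟨d, hd⟩ : ∃ d : ℤ, d = b - j - 1 := ⟨_, rfl⟩
    -- the extension `q`: one turn at `d`, then forced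
    obtain ⟨q, hq1, hq2, hq3⟩ := H.extend p (d - k - 1) (hp.mono (by omega) (by omega))
      (fun i => i ≠ d - k - 1)
    have hq1' : ∀ i, i ≤ d → q i = p i := fun i hi => hq1 i (by omega)
    have hqpath : Path Adj q (a + 1) b := by
      intro i h1 h2
      rcases lt_or_ge i d with hlt | hge
      · rw [hq1' i hlt.le, hq1' (i + 1) (by omega)]
        exact hp i h1 h2
      · exact hq2 (i + 1) i (by omega) (by omega)
    -- the extension `w` with turns only
    obtain ⟨w, hw1, hw2, hw3⟩ := H.extend q (d - k) ((hq2 (d + 1)).mono (by omega) (by omega))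
      (fun _ => False)
    have hw1' : ∀ i, i ≤ d + 1 → w i = q i := fun i hi => hw1 i (by omega)
    have hwpath : Path Adj w (a + 1) b := by
      intro i h1 h2
      rcases lt_or_ge i d with hlt | hge
      · rw [hw1' i (by omega), hw1' (i + 1) (by omega)]
        exact hqpath i h1 h2
      · exact hw2 (i + 1) i (by omega) (by omega)
    -- claim `j` for `q`
    have hqturn : ∀ i, a + 1 ≤ i → i < a + (r + 1 : ℕ) - j → ¬ Lk G k q i := by
      intro i h1 h2
      push_cast at h2
      rcases lt_or_ge i (d - k - 1) with hlt | hge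
      · rw [Lk_congr (p := q) (q := p) (fun l _ h4 => hq1' l (by omega))]
        exact hturn i h1 (by push_cast; omega)
      · rw [hq3 i hge]
        have : i = d - k - 1 := by omega
        simp [this]
    have hqforced : ∀ i, d - k ≤ i → Lk G k q i := by
      intro i h1
      rw [hq3 i (by omega)]
      omega
    have c1 := ih' q a b hb hqpath hqturn (fun i h1 h2 => hqforced i (by push_cast at h1; omega))
    -- the subgroups
    set B := Fx G p (a + 1) b with hB
    have hBd : B = Fx G p (a + 1) d := by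
      have := Fx_ext' (G := G) (k := k) (p := p) (e := a + 1) (c := d - 1) (b := b) (by omega)
        (by omega) (fun i h1 h2 => hforced i (by push_cast; omega) (by push_cast; omega))
      rw [show d - 1 + 1 = d by ring] at this
      rw [this]
    set Bt := B ⊓ stabilizer G (q (d + 1)) with hBt
    have hBtq : Bt = Fx G q (a + 1) (d + 1) := by
      rw [hBt, hBd, Fx_right q (by omega),
        Fx_congr (p := q) (q := p) (a := a + 1) (b := d) (fun i _ h2 => hq1' i h2)]
    have hBtq' : Bt = Fx G q (a + 1) b := by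
      rw [hBtq]
      exact Fx_ext' (k := k) (by omega) (by omega) (fun i h1 _ => hqforced i h1)
    have hqd : q (d + 1) ∈ SO G Adj k p d := by
      rw [← SO_congr (p := q) (q := p) (b := d) (fun i _ h2 => hq1' i h2),
        H.mem_SO_iff q d ((hq2 (d + 1)).mono le_rfl le_rfl), hq3 _ le_rfl]
      simp
    have hpd : p (d + 1) ∉ SO G Adj k p d := by
      rw [H.mem_SO_iff p d (hp.mono (by omega) (by omega)), not_not]
      exact hforced _ (by push_cast; omega) (by push_cast; omega)
    have hne : p (d + 1) ≠ q (d + 1) := fun h => hpd (h ▸ hqd)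
    -- (B1)
    have b1 := H.B1 (y := j + 1) (by omega) (hall (j + 1) (by omega)) p q d
      (hp.mono (by omega) (by push_cast; omega)) ((hq2 _).mono (by omega) le_rfl)
      (fun i _ h2 => (hq1' i h2).symm) hne
      (fun i h1 h2 => hforced i (by push_cast; omega) (by push_cast at h2 ⊢; omega))
      (fun i h1 _ => hqforced i h1)
    rw [show d + ((j + 1 : ℕ) : ℤ) = b by push_cast; omega] at b1
    have hBtB : Bt ≤ B := inf_le_left
    have hkerBt : ∀ g ∈ Bt, (Fixes g (In Adj (p (a + 1))) ↔ Fixes g (Out Adj (p b))) := by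
      intro g hg
      have h1 : g ∈ Fx G q (a + 1) b := by rw [← hBtq']; exact hg
      have h2 := c1 g h1
      rw [hq1' (a + 1) (by omega)] at h2
      rw [h2]
      refine (b1 g ⟨?_, hg.2⟩).symm
      exact Fx_mono p (by omega) (by omega) (hBtB hg)
    -- the side sets
    have hpb : Path Adj p (b - k - 1) b := hp.mono (by omega) le_rfl
    obtain ⟨S1, hS1c, hS1i, hS1f⟩ := H.SI_spec p a (hp.mono le_rfl (by omega))
    set S2 := SO G Adj k p b with hS2
    have hS2c : S2.ncard = n - 1 := H.SO_ncard p b hpb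
    have hBle : B ≤ Fx G p (a + 1) (a + k + 2) := Fx_mono p le_rfl (by omega)
    have hBinv1 : Inv B S1 := hS1i B hBle
    have hBinv2 : Inv B S2 := H.SO_inv p b hpb (Fx_mono p (by omega) le_rfl)
    have hkerS : ∀ g ∈ B, (Fixes g (In Adj (p (a + 1))) ↔ Fixes g (Out Adj (p b))) →
        (Fixes g S1 ↔ Fixes g S2) := by
      intro g hg h
      rw [hS1f g (hBle hg), H.fixes_SO_iff p b hpb (Fx_mono p (by omega) le_rfl hg)]
      exact h
    -- bigness of `Bt` on `S1`
    have hwall : ∀ i, a + 1 ≤ i → i < a + (r + 1 : ℕ) → ¬ Lk G k w i := by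
      intro i h1 h2
      push_cast at h2
      rcases lt_or_ge i (d - k) with hlt | hge
      · rw [Lk_congr (p := w) (q := q) (fun l _ h4 => hw1' l (by omega))]
        exact hqturn i h1 (by push_cast; omega)
      · rw [hw3 i hge]
        exact not_false
    have hw := H.L_turns hnf hf w a b hb hwpath hwall
    have hwB : Fx G w (a + 1) b ≤ Bt := by
      rw [hBtq, ← Fx_congr (p := w) (q := q) (a := a + 1) (b := d + 1)
        (fun i _ h2 => hw1' i h2)]
      exact Fx_mono w le_rfl (by omega)
    have hwb : Path Adj w (b - k - 1) b := hwpath.mono (by omega) le_rfl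
    have hwin : w (a + 1) = p (a + 1) := by
      rw [hw1' (a + 1) (by omega), hq1' (a + 1) (by omega)]
    have hbig1 : Big (Fx G w (a + 1) b) S1 := by
      refine big_of_same_kernel (S := SO G Adj k w b) (H.SO_five w b hwb)
        (by rw [hS1c, H.SO_ncard w b hwb])
        (H.SO_inv w b hwb (Fx_mono w (by omega) le_rfl))
        (Inv_mono (hwB.trans hBtB) hBinv1) hw.1 ?_
      intro g hg
      rw [H.fixes_SO_iff w b hwb (Fx_mono w (by omega) le_rfl hg), ← hw.2 g hg, hwin,
        hS1f g (hBle (hBtB (hwB hg)))]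
    have hBtbig1 : Big Bt S1 := Big_mono hwB hbig1
    have hBtinv1 : Inv Bt S1 := Inv_mono hBtB hBinv1
    have hBtinv2 : Inv Bt S2 := Inv_mono hBtB hBinv2
    have hBtbig2 : Big Bt S2 := by
      refine big_of_same_kernel (by rw [hS1c]; omega) (by rw [hS1c, hS2c]) hBtinv1 hBtinv2
        hBtbig1 ?_
      intro g hg
      exact hkerS g (hBtB hg) (hkerBt g hg)
    have hnotrich : ¬ Rich B S1 S2 := by
      intro hr
      have hidx := relIndex_stab (A := B) (H.fin_Out (p d))
        (H.inv_Out (H.Fx_le_stab p (by omega) (by omega))) (s := q (d + 1)) hqd.1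
      rw [H.out, ← hBt] at hidx
      have h1 : Rich Bt S1 S2 := by
        refine rich_of_relIndex (by rw [hS1c]; omega) (by rw [hS1c, hS2c]) hBinv1 hBinv2 hr
          hBtB hidx.1 ?_ hBtbig1 hBtbig2
        rw [hS1c]
        have := two_mul_lt_factorial hn
        omega
      refine not_rich_of_fixes (by rw [hS1c]; omega) ?_ h1
      intro g hg hfix
      exact (hkerS g (hBtB hg) (hkerBt g hg)).2 hfix
    intro g hg
    have h1 := fixes_iff_of_not_rich (by rw [hS1c]; omega) (by rw [hS2c]; omega) hBinv1 hBinv2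
      (Big_mono hBtB hBtbig1) (Big_mono hBtB hBtbig2) hnotrich g hg
    rwa [hS1f g (hBle hg), H.fixes_SO_iff p b hpb (Fx_mono p (by omega) le_rfl hg)] at h1

/-- statement (B3) of the paper proof -/
theorem B3 (hall : ∀ y : ℕ, 0 < y → ∃ r, ¬ NonFail G Adj k y r) :
    ∃ R : ℕ, 0 < R ∧ ∀ (p : ℤ → V) (c : ℤ), (∀ b, Path Adj p (c - k) b) →
      (∀ i, c - k ≤ i → Lk G k p i) →
      ∀ g ∈ Fx G p (c - k) (c + 1), (Fixes g (Out Adj (p c)) ↔ Fixes g (Out Adj (p (c + R)))) := by
  classical
  have hf := hall 1 one_pos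
  obtain ⟨r, hr1, hr2⟩ : ∃ r, (∀ r' < r + 1, NonFail G Adj k 1 r') ∧
      ¬ NonFail G Adj k 1 (r + 1) := by
    have h0 : Nat.find hf ≠ 0 := by
      intro h
      have := Nat.find_spec hf
      rw [h] at this
      exact this (H.nonFail_zero 1)
    obtain ⟨r, hr⟩ := Nat.exists_eq_succ_of_ne_zero h0
    refine ⟨r, ?_, ?_⟩
    · intro r' hr'
      have := Nat.find_min hf (m := r') (by omega)
      simpa using this
    · have := Nat.find_spec hf
      rw [hr] at this
      exact this
  refine ⟨r + 1, by omega, ?_⟩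
  intro p c hp hL g hg
  have e1 : c - k = (c - k - 1) + 1 := by ring
  have h1 := H.claimS hr1 hr2 hall r le_rfl p (c - k - 1) (c + (r + 1 : ℕ))
    (by push_cast; ring) (by rw [← e1]; exact hp _)
    (fun i h1 h2 => by exfalso; push_cast at h2; omega)
    (fun i h1 _ => hL i (by push_cast at h1; omega))
  rw [← e1] at h1
  have h2 : Fx G p (c - k) (c + 1) = Fx G p (c - k) (c + (r + 1 : ℕ)) :=
    Fx_ext' (k := k) le_rfl (by push_cast; omega) (fun i h1 _ => hL i h1)
  rw [h2] at hg
  rw [← h1 g hg]
  have h3 := H.fix_in_iff p (c - k) (hp _) (g := g)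
    (Fx_mono p le_rfl (by push_cast; omega) hg)
  rw [show c - (k : ℤ) + k = c by ring] at h3
  exact h3.symm

end Fail

end Pool.Agent.Lib_helper84.BT
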