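import Pool.Agent.Lib_helper84.BT.B3

set_option autoImplicit false

/-! All patterns fail: a subgroup of finite index fixes everything reachable. -/

namespace Pool.Agent.Lib_helper84.BT

open MulAction

variable {G V : Type*} [Group G] [MulAction G V] {n : ℕ} {Adj : V → V → Prop}

/-- the elements which fix a path and all out-neighbours along its continuation -/
def DD (G : Type*) {V : Type*} [Group G] [MulAction G V] (Adj : V → V → Prop) (k : ℕ)
    (p : ℤ → V) (c : ℤ) : Subgroup G where
  carrier := {g | g ∈ Fx G p (c - k) c ∧ ∀ i, c ≤ i → Fixes g (Out Adj (p i))}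
  mul_mem' := fun h1 h2 => ⟨mul_mem h1.1 h2.1, fun i hi => Fixes_mul (h1.2 i hi) (h2.2 i hi)⟩
  one_mem' := ⟨one_mem _, fun _ _ _ _ => one_smul _ _⟩
  inv_mem' := fun h => ⟨inv_mem h.1, fun i hi => Fixes_inv (h.2 i hi)⟩

/-- a line: every edge after the first `k+1` ones is forced -/
def Line (G : Type*) {V : Type*} [Group G] [MulAction G V] (Adj : V → V → Prop) (k : ℕ)
    (p : ℤ → V) (c : ℤ) : Prop :=
  (∀ b, Path Adj p (c - k) b) ∧ ∀ i, c - k ≤ i → Lk G k p i

theorem Line.succ {k : ℕ} {p : ℤ → V} {c c' : ℤ} (h : Line G Adj k p c) (hc : c ≤ c') :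
    Line G Adj k p c' :=
  ⟨fun b => (h.1 b).mono (by omega) le_rfl, fun i hi => h.2 i (by omega)⟩

theorem DD_succ {k : ℕ} {p : ℤ → V} {c : ℤ} (h : Line G Adj k p c) :
    DD G Adj k p c ≤ DD G Adj k p (c + 1) := by
  intro g hg
  refine ⟨?_, fun i hi => hg.2 i (by omega)⟩
  intro i h1 h2
  rcases lt_or_ge c i with hlt | hge
  · obtain rfl : i = c + 1 := by omega
    exact hg.2 c le_rfl _ (h.1 (c + 1) c (by omega) (by omega))
  · exact hg.1 i (by omega) hge

namespace Gr

variable (H : Gr G n Adj)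

include H

theorem stab_out {v w : V} (h : Adj v w) : (stabilizer G w).relIndex (stabilizer G v) ≠ 0 := by
  have := (relIndex_stab (H.fin_Out v) (H.inv_Out (le_refl (stabilizer G v))) (s := w) h).1
  rw [Subgroup.inf_relIndex_left] at this
  exact this

theorem stab_in {v w : V} (h : Adj w v) : (stabilizer G w).relIndex (stabilizer G v) ≠ 0 := by
  have := (relIndex_stab (H.fin_In v) (H.inv_In (le_refl (stabilizer G v))) (s := w) h).1
  rw [Subgroup.inf_relIndex_left] at this
  exact this

theorem stab_right {p : ℤ → V} {a : ℤ} (hp : ∀ b, Path Adj p a b) (i : ℤ) (hi : a ≤ i) (d : ℕ) :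
    (stabilizer G (p (i + d))).relIndex (stabilizer G (p i)) ≠ 0 := by
  induction d with
  | zero =>
    simp
  | succ d ih =>
    refine Subgroup.relIndex_ne_zero_trans (H.stab_out ?_) ih
    rw [show i + ((d + 1 : ℕ) : ℤ) = i + d + 1 by push_cast; ring]
    exact hp (i + d + 1) (i + d) (by omega) (by omega)

theorem stab_left {p : ℤ → V} {a : ℤ} (hp : ∀ b, Path Adj p a b) (i : ℤ) (hi : a ≤ i) (d : ℕ) :
    (stabilizer G (p i)).relIndex (stabilizer G (p (i + d))) ≠ 0 := by
  induction d with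
  | zero =>
    simp
  | succ d ih =>
    refine Subgroup.relIndex_ne_zero_trans ih (H.stab_in ?_)
    rw [show i + ((d + 1 : ℕ) : ℤ) = i + d + 1 by push_cast; ring]
    exact hp (i + d + 1) (i + d) (by omega) (by omega)

theorem stab_path {p : ℤ → V} {a : ℤ} (hp : ∀ b, Path Adj p a b) (i j : ℤ) (hi : a ≤ i)
    (hj : a ≤ j) : (stabilizer G (p j)).relIndex (stabilizer G (p i)) ≠ 0 := by
  rcases le_total i j with h | h
  · have := H.stab_right hp i hi (j - i).toNat
    rwa [show i + (((j - i).toNat : ℕ) : ℤ) = j by omega] at this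
  · have := H.stab_left hp j hj (i - j).toNat
    rwa [show j + (((i - j).toNat : ℕ) : ℤ) = i by omega] at this

end Gr

namespace Fail

variable {k : ℕ} (H : Fail G n Adj k)

include H

theorem DD_indep' (hall : ∀ y : ℕ, 0 < y → ∃ r, ¬ NonFail G Adj k y r) {p q : ℤ → V} {c : ℤ}
    (hp : Line G Adj k p c) (hq : Line G Adj k q c) (hpq : ∀ i, c - k ≤ i → i ≤ c → p i = q i)
    (hne : p (c + 1) ≠ q (c + 1)) : DD G Adj k p c ≤ DD G Adj k q c := by
  intro g hg
  have hg1 : g ∈ Fx G p (c - k) (c + 1) := by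
    rw [Fx_right p (by omega)]
    exact ⟨hg.1, hg.2 c le_rfl _ (hp.1 (c + 1) c (by omega) (by omega))⟩
  have hg2 : g • q (c + 1) = q (c + 1) := by
    have h1 := hg.2 c le_rfl
    rw [hpq c (by omega) le_rfl] at h1
    exact h1 _ (hq.1 (c + 1) c (by omega) (by omega))
  refine ⟨?_, ?_⟩
  · rw [← Fx_congr hpq]
    exact hg.1
  · intro i hi
    rcases eq_or_lt_of_le hi with rfl | hlt
    · rw [← hpq c (by omega) le_rfl]
      exact hg.2 c le_rfl
    · obtain ⟨y, hy⟩ : ∃ y : ℕ, i = c + y := ⟨(i - c).toNat, by omega⟩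
      have h1 := H.B1 (y := y) (by omega) (hall y (by omega)) p q c (hp.1 _) (hq.1 _) hpq hne
        (fun i h1 _ => hp.2 i h1) (fun i h1 _ => hq.2 i h1) g ⟨hg1, hg2⟩
      rw [hy, ← h1, ← hy]
      exact hg.2 i hi

/-- another line through the same path -/
theorem other_line {p : ℤ → V} {c : ℤ} (hp : Path Adj p (c - k) c) {u : V} (hu : Adj (p c) u) :
    ∃ q, Line G Adj k q c ∧ (∀ i, i ≤ c → q i = p i) ∧ q (c + 1) = u := by
  classical
  have hpath : Path Adj (Function.update p (c + 1) u) (c - k) (c - k + k + 1) := by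
    intro i h1 h2
    rcases lt_or_ge i c with hlt | hge
    · rw [Function.update_of_ne (by omega), Function.update_of_ne (by omega)]
      exact hp i h1 hlt
    · obtain rfl : i = c := by omega
      rw [Function.update_self, Function.update_of_ne (by omega)]
      exact hu
  obtain ⟨q, hq1, hq2, hq3⟩ := H.extend _ (c - k) hpath (fun _ => True)
  refine ⟨q, ⟨hq2, fun i hi => (hq3 i hi).2 trivial⟩, ?_, ?_⟩
  · intro i hi
    rw [hq1 i (by omega), Function.update_of_ne (by omega)]
  · rw [hq1 _ (by omega), Function.update_self]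

theorem DD_indep (hall : ∀ y : ℕ, 0 < y → ∃ r, ¬ NonFail G Adj k y r) {p q : ℤ → V} {c : ℤ}
    (hp : Line G Adj k p c) (hq : Line G Adj k q c)
    (hpq : ∀ i, c - k ≤ i → i ≤ c → p i = q i) : DD G Adj k p c ≤ DD G Adj k q c := by
  by_cases hne : p (c + 1) = q (c + 1)
  · have hn := H.hn
    obtain ⟨u, hu, hup, _⟩ := exists_fourth (S := Out Adj (p c)) (by rw [H.out]; omega)
      (p (c + 1)) (p (c + 1)) (p (c + 1))
    obtain ⟨w, hw1, hw2, hw3⟩ := H.other_line (hp.1 c) hu
    refine (H.DD_indep' hall hp hw1 (fun i _ h2 => (hw2 i h2).symm)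
      (by rw [hw3]; exact hup.symm)).trans ?_
    refine H.DD_indep' hall hw1 hq (fun i h1 h2 => by rw [hw2 i h2]; exact hpq i h1 h2)
      (by rw [hw3, ← hne]; exact hup)
  · exact H.DD_indep' hall hp hq hpq hne

theorem DD_reach (hall : ∀ y : ℕ, 0 < y → ∃ r, ¬ NonFail G Adj k y r) {p : ℤ → V} {c : ℤ}
    (hp : Line G Adj k p c) {w : V} (hw : Relation.ReflTransGen Adj (p c) w) :
    ∃ q c', Line G Adj k q c' ∧ q c' = w ∧ DD G Adj k p c ≤ DD G Adj k q c' := by
  induction hw with
  | refl => exact ⟨p, c, hp, rfl, le_rfl⟩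
  | tail _ h ih =>
    obtain ⟨q, c', hq, hqc, hle⟩ := ih
    subst hqc
    obtain ⟨q', h1, h2, h3⟩ := H.other_line (hq.1 c') h
    refine ⟨q', c' + 1, h1.succ (by omega), h3, hle.trans ?_⟩
    exact (H.DD_indep hall hq h1 (fun i _ h5 => (h2 i h5).symm)).trans (DD_succ h1)

theorem DD_relIndex (hall : ∀ y : ℕ, 0 < y → ∃ r, ¬ NonFail G Adj k y r) {p : ℤ → V} {c : ℤ}
    (hp : Line G Adj k p c) : (DD G Adj k p c).relIndex (stabilizer G (p c)) ≠ 0 := by
  classical
  obtain ⟨R, hR, hB3⟩ := H.B3 hall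
  -- a finite set of vertices
  let F : Set V := (p '' Set.Icc (c - k) (c + 1)) ∪ ⋃ i ∈ Set.Icc c (c + R), Out Adj (p i)
  have hF : F.Finite := by
    refine ((Set.finite_Icc _ _).image _).union ?_
    exact (Set.finite_Icc _ _).biUnion (fun i _ => H.fin_Out _)
  have hle : (⨅ w : F, stabilizer G (w : V)) ≤ DD G Adj k p c := by
    intro g hg
    rw [Subgroup.mem_iInf] at hg
    have hfix : ∀ w ∈ F, g • w = w := fun w hw => hg ⟨w, hw⟩
    have h1 : g ∈ Fx G p (c - k) (c + 1) := by
      intro i hi hj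
      exact hfix _ (Or.inl ⟨i, ⟨hi, hj⟩, rfl⟩)
    have h2 : ∀ i, c ≤ i → i ≤ c + R → Fixes g (Out Adj (p i)) := by
      intro i hi hj w hw
      exact hfix _ (Or.inr (Set.mem_biUnion (show i ∈ Set.Icc c (c + R) from ⟨hi, hj⟩) hw))
    have h3 : ∀ j : ℕ, Fixes g (Out Adj (p (c + j))) := by
      intro j
      induction j using Nat.strong_induction_on with
      | _ j ih =>
        rcases le_or_gt j R with hlt | hge
        · exact h2 _ (by omega) (by omega)
        · have h4 := ih (j - R) (by omega)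
          have h5 := hB3 p (c + (j - R : ℕ)) (fun b => (hp.1 b).mono (by omega) le_rfl)
            (fun i hi => hp.2 i (by omega)) g (by
              have h6 : Fx G p (c - k) (c + 1) = Fx G p (c - k) (c + (j - R : ℕ) + 1) :=
                Fx_ext' (k := k) le_rfl (by omega) (fun i hi _ => hp.2 i hi)
              rw [h6] at h1
              exact Fx_mono p (by omega) le_rfl h1)
          rw [show c + ((j - R : ℕ) : ℤ) + R = c + j by omega] at h5
          exact h5.1 h4
    refine ⟨Fx_mono p le_rfl (by omega) h1, ?_⟩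
    intro i hi
    have := h3 (i - c).toNat
    rwa [show c + (((i - c).toNat : ℕ) : ℤ) = i by omega] at this
  have hne : (⨅ w : F, stabilizer G (w : V)).relIndex (stabilizer G (p c)) ≠ 0 := by
    have : Finite F := hF
    apply Subgroup.relIndex_iInf_ne_zero
    rintro ⟨w, hw⟩
    rcases hw with ⟨i, hi, rfl⟩ | hw
    · exact H.stab_path hp.1 c i (by omega) hi.1
    · rw [Set.mem_iUnion₂] at hw
      obtain ⟨i, hi, hw⟩ := hw
      refine Subgroup.relIndex_ne_zero_trans (H.stab_out hw) ?_
      exact H.stab_path hp.1 c i (by omega) (by have := hi.1; omega)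
  intro h0
  apply hne
  exact Nat.eq_zero_of_zero_dvd (h0 ▸ Subgroup.relIndex_dvd_of_le_left _ hle)

/-- case (II) of the graph theorem -/
theorem caseII (hall : ∀ y : ℕ, 0 < y → ∃ r, ¬ NonFail G Adj k y r) (v : V) :
    ∃ D : Subgroup G, D ≤ stabilizer G v ∧ D.relIndex (stabilizer G v) ≠ 0 ∧
      ∀ w, Relation.ReflTransGen Adj v w → ∀ g ∈ D, g • w = w := by
  classical
  have hs : ∀ v : V, ∃ w, Adj v w := by
    intro v
    have hne : (Out Adj v).Nonempty := by
      apply Set.nonempty_of_ncard_ne_zero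
      rw [H.out]
      have := H.hn
      omega
    exact hne
  choose s hs using hs
  let p0 : ℤ → V := fun i => s^[i.toNat] v
  have hp0 : ∀ b, Path Adj p0 0 b := by
    intro b i h1 _
    show Adj (s^[i.toNat] v) (s^[(i + 1).toNat] v)
    rw [show (i + 1).toNat = i.toNat + 1 by omega, Function.iterate_succ_apply']
    exact hs _
  obtain ⟨q, _, hq2, hq3⟩ := H.extend p0 0 (hp0 _) (fun _ => True)
  obtain ⟨g, hg⟩ := H.tr (q k) v
  let q' : ℤ → V := fun i => g • q i
  have hline : Line G Adj k q' k := by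
    refine ⟨?_, ?_⟩
    · intro b i h1 h2
      exact H.adj g _ _ (hq2 b i (by omega) h2)
    · intro i hi
      have := Lk_conj (G := G) (k := k) (p := q) (q := q') (j := i) (c := 0) g
        (fun j _ _ => by rw [add_zero])
      rw [add_zero] at this
      rw [← this]
      exact (hq3 i (by omega)).2 trivial
  have hqk : q' k = v := hg
  refine ⟨DD G Adj k q' k, ?_, ?_, ?_⟩
  · intro x hx
    have := hx.1 k (by omega) le_rfl
    rw [hqk] at this
    exact this
  · have := H.DD_relIndex hall hline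
    rwa [hqk] at this
  · intro w hw x hx
    rw [← hqk] at hw
    obtain ⟨r, c', hr, hrc, hle⟩ := H.DD_reach hall hline hw
    have := (hle hx).1 c' (by omega) le_rfl
    rwa [hrc] at this

end Fail

end Pool.Agent.Lib_helper84.BT
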