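import Mathlib

set_option autoImplicit false

/-! Permutation actions of subgroups on finite sets (for MP_7da452_al). -/

namespace Pool.Agent.Lib_helper84.BT

open MulAction

variable {G V : Type*} [Group G] [MulAction G V]

/-- the subgroup `A` maps the set `S` into itself -/
def Inv (A : Subgroup G) (S : Set V) : Prop := ∀ a ∈ A, ∀ s ∈ S, a • s ∈ S

/-- `g` fixes every element of `S` -/
def Fixes (g : G) (S : Set V) : Prop := ∀ s ∈ S, g • s = s

/-- `g` acts on `S` as the 3-cycle `x -> y -> z -> x` -/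
def Cyc (g : G) (S : Set V) (x y z : V) : Prop :=
  g • x = y ∧ g • y = z ∧ g • z = x ∧ ∀ s ∈ S, s ≠ x → s ≠ y → s ≠ z → g • s = s

/-- every 3-cycle of `S` is induced by an element of `A` -/
def Big (A : Subgroup G) (S : Set V) : Prop :=
  ∀ x ∈ S, ∀ y ∈ S, ∀ z ∈ S, x ≠ y → y ≠ z → x ≠ z → ∃ a ∈ A, Cyc a S x y z

/-- every pair (3-cycle of `S`, identity of `S'`) and (identity, 3-cycle) is induced by `A` -/
def Rich (A : Subgroup G) (S S' : Set V) : Prop :=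
  (∀ x ∈ S, ∀ y ∈ S, ∀ z ∈ S, x ≠ y → y ≠ z → x ≠ z →
    ∃ a ∈ A, Fixes a S' ∧ Cyc a S x y z) ∧
  (∀ x ∈ S', ∀ y ∈ S', ∀ z ∈ S', x ≠ y → y ≠ z → x ≠ z →
    ∃ a ∈ A, Fixes a S ∧ Cyc a S' x y z)

end Pool.Agent.Lib_helper84.BT
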