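import Pool.Agent.Lib_helper84.BT.B1

set_option autoImplicit false

/-! Extending paths with prescribed statuses. -/

namespace Pool.Agent.Lib_helper84.BT

open MulAction

variable {G V : Type*} [Group G] [MulAction G V] {n : ℕ} {Adj : V → V → Prop}

namespace Fail

variable {k : ℕ} (H : Fail G n Adj k)

include H

/-- a next vertex with prescribed status -/
theorem exists_next (p : ℤ → V) (j : ℤ) (hp : Path Adj p (j - k - 1) j) (σ : Prop) :
    ∃ t, Adj (p j) t ∧ (Lk G k (Function.update p (j + 1) t) (j - k - 1) ↔ σ) := by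
  classical
  obtain ⟨t, ht, e, _, _⟩ := H.SO_spec p j hp
  have key : ∀ u, Adj (p j) u →
      (u ∈ SO G Adj k p j ↔ ¬ Lk G k (Function.update p (j + 1) u) (j - k - 1)) := by
    intro u hu
    set q := Function.update p (j + 1) u with hq
    have hqe : ∀ i, i ≤ j → q i = p i := by
      intro i hi
      rw [hq, Function.update_of_ne (by omega)]
    have hq1 : q (j + 1) = u := by rw [hq, Function.update_self]
    have hpath : Path Adj q (j - k - 1) (j + 1) := by
      intro i h1 h2
      rcases lt_or_ge i j with hlt | hge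
      · rw [hqe i hlt.le, hqe (i + 1) (by omega)]
        exact hp i h1 hlt
      · obtain rfl : i = j := by omega
        rw [hq1, hqe i le_rfl]
        exact hu
    have := H.mem_SO_iff q j hpath
    rw [hq1, SO_congr (p := q) (q := p) (fun i _ h2 => hqe i h2)] at this
    exact this
  by_cases hσ : σ
  · refine ⟨t, ht, ?_⟩
    have := key t ht
    rw [e] at this
    have h1 : Lk G k (Function.update p (j + 1) t) (j - k - 1) := by
      by_contra h
      exact (this.2 h).2 rfl
    exact ⟨fun _ => hσ, fun _ => h1⟩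
  · have hc := H.SO_ncard p j hp
    have hn := H.hn
    obtain ⟨u, hu, _⟩ := exists_fourth (S := SO G Adj k p j) (by omega) t t t
    refine ⟨u, hu.1, ?_⟩
    have := (key u hu.1).1 hu
    exact ⟨fun h => absurd h this, fun h => absurd h hσ⟩

/-- a previous vertex with prescribed status -/
theorem exists_prev (p : ℤ → V) (a : ℤ) (hp : Path Adj p (a + 1) (a + k + 2)) :
    ∃ v, Adj v (p (a + 1)) ∧ ¬ Lk G k (Function.update p a v) a := by
  classical
  obtain ⟨v0, hv0, _, hu⟩ := H.forced_left p a hp
  have hn := H.hn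
  obtain ⟨v, hv, hne, _⟩ := exists_fourth (S := In Adj (p (a + 1))) (by rw [H.inn]; omega)
    v0 v0 v0
  refine ⟨v, hv, ?_⟩
  set q := Function.update p a v with hq
  have hqe : ∀ i, a + 1 ≤ i → q i = p i := by
    intro i hi
    rw [hq, Function.update_of_ne (by omega)]
  have hqa : q a = v := by rw [hq, Function.update_self]
  have hpath : Path Adj q a (a + k + 2) := by
    intro i h1 h2
    rcases eq_or_lt_of_le h1 with rfl | h3
    · rw [hqa, hqe _ le_rfl]
      exact hv
    · rw [hqe i (by omega), hqe (i + 1) (by omega)]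
      exact hp i (by omega) h2
  rw [H.Lk_iff_left q a hpath, hqa, Fx_congr (p := q) (q := p) (fun i h1 _ => hqe i h1)]
  intro h
  exact hne (hu v hv h)

/-- infinite extension with prescribed statuses -/
theorem extend (p : ℤ → V) (a : ℤ) (hp : Path Adj p a (a + k + 1)) (σ : ℤ → Prop) :
    ∃ q : ℤ → V, (∀ i, i ≤ a + k + 1 → q i = p i) ∧ (∀ b, Path Adj q a b) ∧
      (∀ i, a ≤ i → (Lk G k q i ↔ σ i)) := by
  classical
  have key : ∀ (f : ℤ → V) (j : ℤ), ∃ t, Path Adj f (j - k - 1) j →
      Adj (f j) t ∧ (Lk G k (Function.update f (j + 1) t) (j - k - 1) ↔ σ (j - k - 1)) := by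
    intro f j
    by_cases h : Path Adj f (j - k - 1) j
    · obtain ⟨t, ht⟩ := H.exists_next f j h (σ (j - k - 1))
      exact ⟨t, fun _ => ht⟩
    · exact ⟨f j, fun h' => absurd h' h⟩
  choose nx hnx using key
  let P : ℕ → (ℤ → V) := fun l => Nat.rec p
    (fun l f => Function.update f (a + k + 1 + l + 1) (nx f (a + k + 1 + l))) l
  have hP0 : P 0 = p := rfl
  have hPs : ∀ l : ℕ, P (l + 1) =
      Function.update (P l) (a + k + 1 + l + 1) (nx (P l) (a + k + 1 + l)) := fun l => rfl
  have hB : ∀ (l : ℕ) (i : ℤ), i ≤ a + k + 1 + l → P (l + 1) i = P l i := by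
    intro l i hi
    rw [hPs, Function.update_of_ne (by omega)]
  have hB' : ∀ (l d : ℕ) (i : ℤ), i ≤ a + k + 1 + l → P (l + d) i = P l i := by
    intro l d
    induction d with
    | zero => intro i _; rfl
    | succ d ih =>
      intro i hi
      rw [← add_assoc, hB (l + d) i (by push_cast; omega)]
      exact ih i hi
  have hA : ∀ l : ℕ, Path Adj (P l) a (a + k + 1 + l) ∧
      ∀ i, a ≤ i → i < a + l → (Lk G k (P l) i ↔ σ i) := by
    intro l
    induction l with
    | zero =>
      refine ⟨?_, ?_⟩
      · rw [hP0]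
        simpa using hp
      · intro i h1 h2
        exfalso
        simp at h2
        omega
    | succ l ih =>
      obtain ⟨ih1, ih2⟩ := ih
      obtain ⟨h1, h2⟩ := hnx (P l) (a + k + 1 + l) (ih1.mono (by omega) le_rfl)
      have e : P (l + 1) (a + k + 1 + l + 1) = nx (P l) (a + k + 1 + l) := by
        rw [hPs, Function.update_self]
      refine ⟨?_, ?_⟩
      · intro i h3 h4
        push_cast at h4
        rcases lt_or_ge i (a + k + 1 + l) with hlt | hge
        · rw [hB l i hlt.le, hB l (i + 1) (by omega)]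
          exact ih1 i h3 hlt
        · obtain rfl : i = a + k + 1 + l := by omega
          rw [e, hB l _ le_rfl]
          exact h1
      · intro i h3 h4
        push_cast at h4
        rcases lt_or_ge i (a + l) with hlt | hge
        · rw [Lk_congr (p := P (l + 1)) (q := P l) (fun j _ h6 => hB l j (by omega))]
          exact ih2 i h3 hlt
        · obtain rfl : i = a + l := by omega
          rw [show a + k + 1 + (l : ℤ) - k - 1 = a + l by ring] at h2
          rw [hPs]
          exact h2
  let q : ℤ → V := fun i => P (i - a - k - 1).toNat i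
  have hC : ∀ (l : ℕ) (i : ℤ), i ≤ a + k + 1 + l → q i = P l i := by
    intro l i hi
    show P (i - a - k - 1).toNat i = P l i
    have h1 : (i - a - k - 1).toNat ≤ l := by omega
    obtain ⟨d, hd⟩ := Nat.exists_eq_add_of_le h1
    conv_rhs => rw [hd]
    rw [hB' _ d i (by omega)]
  refine ⟨q, ?_, ?_, ?_⟩
  · intro i hi
    rw [hC 0 i (by simpa using hi), hP0]
  · intro b i h1 h2
    have h3 := (hA (b - a).toNat).1
    rw [hC (b - a).toNat i (by omega), hC (b - a).toNat (i + 1) (by omega)]
    exact h3 i h1 (by omega)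
  · intro i hi
    have h3 := (hA (i - a + 1).toNat).2 i hi (by omega)
    rw [← h3]
    exact Lk_congr (fun j _ h5 => hC _ j (by omega))

/-- the side set of the in-neighbours -/
theorem SI_spec (p : ℤ → V) (a : ℤ) (hp : Path Adj p (a + 1) (a + k + 2)) :
    ∃ S : Set V, S.ncard = n - 1 ∧
      (∀ A : Subgroup G, A ≤ Fx G p (a + 1) (a + k + 2) → Inv A S) ∧
      (∀ g ∈ Fx G p (a + 1) (a + k + 2), (Fixes g S ↔ Fixes g (In Adj (p (a + 1))))) := by
  obtain ⟨v0, hv0, hf, _⟩ := H.forced_left p a hp
  refine ⟨In Adj (p (a + 1)) \ {v0}, ?_, ?_, ?_⟩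
  · rw [Set.ncard_sdiff_singleton_of_mem hv0, H.inn]
  · intro A hA g hg v hv
    refine ⟨H.inv_In (hA.trans (H.Fx_le_stab p le_rfl (by omega))) g hg v hv.1, ?_⟩
    intro h
    rw [Set.mem_singleton_iff] at h
    apply hv.2
    rw [Set.mem_singleton_iff]
    have h3 := hf g (hA hg)
    rw [← h3] at h
    exact MulAction.injective g h
  · intro g hg
    constructor
    · intro h v hv
      by_cases hvv : v = v0
      · rw [hvv]
        exact hf g hg
      · exact h v ⟨hv, hvv⟩
    · intro h
      exact Fixes_mono Set.sdiff_subset h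

end Fail

end Pool.Agent.Lib_helper84.BT
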