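import Pool.Agent.Lib_helper84.BT.Gr

set_option autoImplicit false

/-! The first failing length `k+1`; forced continuations. -/

namespace Pool.Agent.Lib_helper84.BT

open MulAction

variable {G V : Type*} [Group G] [MulAction G V] {n : ℕ} {Adj : V → V → Prop}

/-- `k+1` is the first length at which the out-action of a path is not big -/
structure Fail (G : Type*) {V : Type*} [Group G] [MulAction G V] (n : ℕ)
    (Adj : V → V → Prop) (k : ℕ) : Prop extends Gr G n Adj where
  good : ∀ j ≤ k, AllBig G Adj j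
  bad : ¬ AllBig G Adj (k + 1)

/-- the edge with start index `i+k+1` is forced by the window `[i, i+k+1]` -/
def Lk (G : Type*) {V : Type*} [Group G] [MulAction G V] (k : ℕ) (p : ℤ → V) (i : ℤ) : Prop :=
  Fx G p i (i + k + 1) = Fx G p (i + 1) (i + k + 2)

namespace Fail

variable {k : ℕ} (H : Fail G n Adj k)

include H

theorem PT_le : ∀ j ≤ k + 1, PT G Adj j := by
  intro j
  induction j with
  | zero => intro _; exact H.toGr.PT_zero
  | succ j ih => intro hj; exact H.toGr.PT_succ (ih (by omega)) (H.good j (by omega))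

theorem allBad (p : ℤ → V) (a : ℤ) (hp : Path Adj p a (a + k + 1)) :
    ¬ Big (Fx G p a (a + k + 1)) (Out Adj (p (a + k + 1))) := by
  intro hb
  apply H.bad
  intro q b hq
  have hq' : Path Adj q b (b + ((k + 1 : ℕ) : ℤ)) := hq
  obtain ⟨g, hg⟩ := H.PT_le (k + 1) le_rfl p q a b (by push_cast; rw [← add_assoc]; exact hp) hq
  have e : b + ((k + 1 : ℕ) : ℤ) = (a + k + 1) + (b - a) := by push_cast; ring
  have key : ∀ i, a ≤ i → i ≤ a + k + 1 → g • p i = q (i + (b - a)) := by
    intro i h1 h2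
    have := hg (i - a) (by omega) (by push_cast; omega)
    rw [show a + (i - a) = i by ring, show b + (i - a) = i + (b - a) by ring] at this
    exact this
  refine Big_conj g (A := Fx G p a (a + k + 1)) (S := Out Adj (p (a + k + 1))) ?_ ?_ hb
  · intro x
    have := mem_Fx_conj g key x
    rw [show a + (b - a) = b by ring] at this
    rw [e]
    exact this
  · intro v
    rw [e, ← key _ (by omega) le_rfl]
    have := H.mem_Out g (p (a + k + 1)) (g⁻¹ • v)
    rw [smul_inv_smul] at this
    exact this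

/-- the linking of in- and out-neighbours -/
theorem theta (p : ℤ → V) (a : ℤ) (hp : Path Adj p a (a + k)) {v : V} (hv : v ∈ In Adj (p a)) :
    ∃ t ∈ Out Adj (p (a + k)),
      Fx G p a (a + k) ⊓ stabilizer G v = Fx G p a (a + k) ⊓ stabilizer G t := by
  classical
  set P := Fx G p a (a + k) with hP
  have hInv : Inv P (Out Adj (p (a + k))) := H.inv_Out (H.Fx_le_stab p (by omega) le_rfl)
  have hInvI : Inv P (In Adj (p a)) := H.inv_In (H.Fx_le_stab p le_rfl (by omega))
  have hbig : Big P (Out Adj (p (a + k))) := H.good k le_rfl p a hp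
  have hidx := relIndex_stab (H.fin_In (p a)) hInvI hv
  have hnb : ¬ Big (P ⊓ stabilizer G v) (Out Adj (p (a + k))) := by
    set q := Function.update p (a - 1) v with hq
    have hqe : ∀ i, a ≤ i → i ≤ a + k → p i = q i := by
      intro i h1 h2
      rw [hq, Function.update_of_ne (by omega)]
    have hq1 : q (a - 1) = v := by rw [hq, Function.update_self]
    have hpq : Path Adj q (a - 1) (a - 1 + k + 1) := by
      intro i h1 h2
      rcases eq_or_lt_of_le h1 with rfl | h3
      · rw [hq1, show a - 1 + 1 = a by ring, ← hqe a le_rfl (by omega)]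
        exact hv
      · exact (hp.congr hqe) i (by omega) (by omega)
    have := H.allBad q (a - 1) hpq
    rw [show a - 1 + (k : ℤ) + 1 = a + k by ring, Fx_left q (by omega), hq1,
      show a - 1 + 1 = a by ring, ← Fx_congr hqe, ← hqe (a + k) (by omega) le_rfl] at this
    exact this
  have hle : (P ⊓ stabilizer G v).relIndex P ≤ (Out Adj (p (a + k))).ncard := by
    rw [H.out]
    have := hidx.2
    rw [H.inn] at this
    exact this
  obtain ⟨t, ht, e⟩ := eq_stab (by rw [H.out]; exact H.hn) hInv hbig inf_le_left hidx.1 hle hnb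
  exact ⟨t, ht, e⟩

theorem out_uniq (p : ℤ → V) (a : ℤ) (hp : Path Adj p a (a + k)) {t t' : V}
    (ht : t ∈ Out Adj (p (a + k))) (ht' : t' ∈ Out Adj (p (a + k)))
    (h : Fx G p a (a + k) ⊓ stabilizer G t ≤ stabilizer G t') : t = t' := by
  by_contra hne
  have hbig : Big (Fx G p a (a + k)) (Out Adj (p (a + k))) := H.good k le_rfl p a hp
  obtain ⟨z, hz, h1, h2, _⟩ := exists_fourth (H.four_Out (p (a + k))) t t' t'
  obtain ⟨g, hg, e1, e2⟩ := hbig.move (H.four_Out (p (a + k))) ht ht' hz hne h1.symm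
  have h3 : g • t' = t' := h ⟨hg, e1⟩
  rw [e2] at h3
  exact h2 h3

theorem theta_surj (p : ℤ → V) (a : ℤ) (hp : Path Adj p a (a + k)) {t : V}
    (ht : t ∈ Out Adj (p (a + k))) :
    ∃ v ∈ In Adj (p a),
      Fx G p a (a + k) ⊓ stabilizer G v = Fx G p a (a + k) ⊓ stabilizer G t := by
  have hne : (In Adj (p a)).Nonempty := by
    apply Set.nonempty_of_ncard_ne_zero
    rw [H.inn]
    have := H.hn
    omega
  obtain ⟨v, hv⟩ := hne
  obtain ⟨s, hs, e⟩ := H.theta p a hp hv
  have hbig : Big (Fx G p a (a + k)) (Out Adj (p (a + k))) := H.good k le_rfl p a hp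
  obtain ⟨g, hg, e1⟩ := hbig.tr (H.four_Out _) hs ht
  have hInvI : Inv (Fx G p a (a + k)) (In Adj (p a)) :=
    H.inv_In (H.Fx_le_stab p le_rfl (by omega))
  refine ⟨g • v, hInvI g hg v hv, ?_⟩
  ext x
  have key : ∀ u w : V, g • u = w → (x ∈ Fx G p a (a + k) ⊓ stabilizer G w ↔
      g⁻¹ * x * g ∈ Fx G p a (a + k) ⊓ stabilizer G u) := by
    intro u w hu
    rw [Subgroup.mem_inf, Subgroup.mem_inf, mem_stabilizer_iff, mem_stabilizer_iff, ← hu]
    constructor
    · rintro ⟨h1, h2⟩
      refine ⟨Subgroup.mul_mem _ (Subgroup.mul_mem _ (Subgroup.inv_mem _ hg) h1) hg, ?_⟩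
      rw [mul_smul, mul_smul, h2, inv_smul_smul]
    · rintro ⟨h1, h2⟩
      refine ⟨?_, ?_⟩
      · have := Subgroup.mul_mem _ (Subgroup.mul_mem _ hg h1) (Subgroup.inv_mem _ hg)
        have e : g * (g⁻¹ * x * g) * g⁻¹ = x := by group
        rwa [e] at this
      · rw [mul_smul, mul_smul, inv_smul_eq_iff] at h2
        exact h2
  rw [key v (g • v) rfl, key s t e1, e]

theorem in_uniq (p : ℤ → V) (a : ℤ) (hp : Path Adj p a (a + k)) {v v' : V}
    (hv : v ∈ In Adj (p a)) (hv' : v' ∈ In Adj (p a))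
    (h : Fx G p a (a + k) ⊓ stabilizer G v ≤ stabilizer G v') : v = v' := by
  classical
  have key : ∀ u ∈ In Adj (p a), ∃ t ∈ Out Adj (p (a + k)),
      Fx G p a (a + k) ⊓ stabilizer G u = Fx G p a (a + k) ⊓ stabilizer G t :=
    fun u hu => H.theta p a hp hu
  choose f hf1 hf2 using key
  have hinj := Set.inj_on_of_surj_on_of_ncard_le (s := In Adj (p a))
    (t := Out Adj (p (a + k))) f hf1 (by
      intro t ht
      obtain ⟨u, hu, e⟩ := H.theta_surj p a hp ht
      refine ⟨u, hu, ?_⟩
      refine H.out_uniq p a hp (hf1 u hu) ht ?_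
      rw [← hf2 u hu, e]
      exact inf_le_right) (by rw [H.inn, H.out])
  refine hinj hv hv' ?_ (H.fin_In _)
  apply H.out_uniq p a hp (hf1 v hv) (hf1 v' hv')
  rw [← hf2 v hv]
  have h1 : Fx G p a (a + k) ⊓ stabilizer G v ≤ Fx G p a (a + k) ⊓ stabilizer G v' :=
    le_inf inf_le_left h
  rw [hf2 v' hv'] at h1
  exact h1.trans inf_le_right

theorem fix_in_iff (p : ℤ → V) (a : ℤ) (hp : Path Adj p a (a + k)) {g : G}
    (hg : g ∈ Fx G p a (a + k)) :
    Fixes g (In Adj (p a)) ↔ Fixes g (Out Adj (p (a + k))) := by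
  constructor
  · intro h t ht
    obtain ⟨v, hv, e⟩ := H.theta_surj p a hp ht
    have h1 : g ∈ Fx G p a (a + k) ⊓ stabilizer G v := ⟨hg, h v hv⟩
    rw [e] at h1
    exact h1.2
  · intro h v hv
    obtain ⟨t, ht, e⟩ := H.theta p a hp hv
    have h1 : g ∈ Fx G p a (a + k) ⊓ stabilizer G t := ⟨hg, h t ht⟩
    rw [← e] at h1
    exact h1.2

/-- the forced continuation to the right -/
theorem forced_right (p : ℤ → V) (i : ℤ) (hp : Path Adj p i (i + k + 1)) :
    ∃ t ∈ Out Adj (p (i + k + 1)), (∀ g ∈ Fx G p i (i + k + 1), g • t = t) ∧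
      (∀ t' ∈ Out Adj (p (i + k + 1)), (∀ g ∈ Fx G p i (i + k + 1), g • t' = t') → t' = t) ∧
      Big (Fx G p i (i + k + 1)) (Out Adj (p (i + k + 1)) \ {t}) ∧
      Fx G p i (i + k + 1) = Fx G p (i + 1) (i + k + 1) ⊓ stabilizer G t := by
  have hp' : Path Adj p (i + 1) (i + 1 + k) := hp.mono (by omega) (by omega)
  obtain ⟨t, ht, e⟩ := H.theta p (i + 1) hp' (v := p i) (hp i le_rfl (by omega))
  rw [show i + 1 + (k : ℤ) = i + k + 1 by ring] at ht e hp'
  have e2 : Fx G p i (i + k + 1) = Fx G p (i + 1) (i + k + 1) ⊓ stabilizer G t := by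
    rw [Fx_left p (by omega), e]
  refine ⟨t, ht, ?_, ?_, ?_, e2⟩
  · intro g hg
    rw [e2] at hg
    exact hg.2
  · intro t' ht' h
    have h1 := H.out_uniq p (i + 1) (by rw [show i + 1 + (k : ℤ) = i + k + 1 by ring]; exact hp')
      (t := t) (t' := t') (by rw [show i + 1 + (k : ℤ) = i + k + 1 by ring]; exact ht)
      (by rw [show i + 1 + (k : ℤ) = i + k + 1 by ring]; exact ht')
      (by
        rw [show i + 1 + (k : ℤ) = i + k + 1 by ring, ← e2]
        exact fun g hg => h g hg)
    exact h1.symm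
  · have hbig : Big (Fx G p (i + 1) (i + 1 + k)) (Out Adj (p (i + 1 + k))) :=
      H.good k le_rfl p (i + 1) (by rw [show i + 1 + (k : ℤ) = i + k + 1 by ring]; exact hp')
    rw [show i + 1 + (k : ℤ) = i + k + 1 by ring] at hbig
    intro x hx y hy z hz h1 h2 h3
    obtain ⟨a, ha, c1, c2, c3, c4⟩ := hbig x hx.1 y hy.1 z hz.1 h1 h2 h3
    refine ⟨a, ?_, c1, c2, c3, fun s hs => c4 s hs.1⟩
    rw [e2]
    refine ⟨ha, c4 t ht ?_ ?_ ?_⟩
    · exact fun h => hx.2 h.symm
    · exact fun h => hy.2 h.symm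
    · exact fun h => hz.2 h.symm

/-- the forced continuation to the left -/
theorem forced_left (p : ℤ → V) (i : ℤ) (hp : Path Adj p (i + 1) (i + k + 2)) :
    ∃ v ∈ In Adj (p (i + 1)), (∀ g ∈ Fx G p (i + 1) (i + k + 2), g • v = v) ∧
      (∀ v' ∈ In Adj (p (i + 1)), (∀ g ∈ Fx G p (i + 1) (i + k + 2), g • v' = v') → v' = v) := by
  have hp' : Path Adj p (i + 1) (i + 1 + k) := hp.mono (by omega) (by omega)
  have ht : p (i + k + 2) ∈ Out Adj (p (i + 1 + k)) := by
    have := hp (i + 1 + k) (by omega) (by omega)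
    rw [show i + 1 + (k : ℤ) + 1 = i + k + 2 by ring] at this
    exact this
  obtain ⟨v, hv, e⟩ := H.theta_surj p (i + 1) hp' ht
  have e2 : Fx G p (i + 1) (i + k + 2) =
      Fx G p (i + 1) (i + 1 + k) ⊓ stabilizer G (p (i + k + 2)) := by
    have := Fx_right (G := G) p (a := i + 1) (b := i + 1 + k) (by omega)
    rw [show i + 1 + (k : ℤ) + 1 = i + k + 2 by ring] at this
    exact this
  refine ⟨v, hv, ?_, ?_⟩
  · intro g hg
    rw [e2, ← e] at hg
    exact hg.2
  · intro v' hv' h
    have h1 := H.in_uniq p (i + 1) hp' hv hv' (by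
      rw [e, ← e2]
      exact fun g hg => h g hg)
    exact h1.symm

theorem Lk_iff_right (p : ℤ → V) (i : ℤ) (hp : Path Adj p i (i + k + 2)) :
    Lk G k p i ↔ ∀ g ∈ Fx G p i (i + k + 1), g • p (i + k + 2) = p (i + k + 2) := by
  constructor
  · intro h g hg
    rw [h] at hg
    exact hg _ (by omega) le_rfl
  · intro h
    obtain ⟨t, ht, _, h2, _, e⟩ := H.forced_right p i (hp.mono le_rfl (by omega))
    have h3 : p (i + k + 2) = t := by
      apply h2 _ _ h
      have := hp (i + k + 1) (by omega) (by omega)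
      rw [show i + (k : ℤ) + 1 + 1 = i + k + 2 by ring] at this
      exact this
    rw [Lk, e, ← h3]
    have := Fx_right (G := G) p (a := i + 1) (b := i + k + 1) (by omega)
    rw [show i + (k : ℤ) + 1 + 1 = i + k + 2 by ring] at this
    rw [this]

theorem Lk_iff_left (p : ℤ → V) (i : ℤ) (hp : Path Adj p i (i + k + 2)) :
    Lk G k p i ↔ ∀ g ∈ Fx G p (i + 1) (i + k + 2), g • p i = p i := by
  constructor
  · intro h g hg
    rw [← h] at hg
    exact hg _ le_rfl (by omega)
  · intro h
    rw [H.Lk_iff_right p i hp]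
    have hp' : Path Adj p (i + 1) (i + 1 + k) := hp.mono (by omega) (by omega)
    have ht : p (i + k + 2) ∈ Out Adj (p (i + 1 + k)) := by
      have := hp (i + 1 + k) (by omega) (by omega)
      rw [show i + 1 + (k : ℤ) + 1 = i + k + 2 by ring] at this
      exact this
    obtain ⟨t', ht', e'⟩ := H.theta p (i + 1) hp' (v := p i) (hp i le_rfl (by omega))
    have e2 : Fx G p (i + 1) (i + k + 2) =
        Fx G p (i + 1) (i + 1 + k) ⊓ stabilizer G (p (i + k + 2)) := by
      have := Fx_right (G := G) p (a := i + 1) (b := i + 1 + k) (by omega)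
      rw [show i + 1 + (k : ℤ) + 1 = i + k + 2 by ring] at this
      exact this
    have h1 : p (i + k + 2) = t' := by
      apply H.out_uniq p (i + 1) hp' ht ht'
      have h3 : Fx G p (i + 1) (i + 1 + k) ⊓ stabilizer G (p (i + k + 2)) ≤
          Fx G p (i + 1) (i + 1 + k) ⊓ stabilizer G (p i) := by
        refine le_inf inf_le_left ?_
        rw [← e2]
        exact fun g hg => h g hg
      rw [e'] at h3
      exact h3.trans inf_le_right
    intro g hg
    have h4 : g ∈ Fx G p (i + 1) (i + 1 + k) ⊓ stabilizer G (p i) :=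
      ⟨Fx_mono p (by omega) (by omega) hg, hg i le_rfl (by omega)⟩
    rw [e', ← h1] at h4
    exact h4.2

end Fail

end Pool.Agent.Lib_helper84.BT
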