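import Pool.Agent.Lib_helper84.BT.W1

set_option autoImplicit false

/-! Pointwise stabilizers of windows of paths. -/

namespace Pool.Agent.Lib_helper84.BT

open MulAction

variable {G V : Type*} [Group G] [MulAction G V]

/-- out-neighbours -/
def Out (Adj : V → V → Prop) (v : V) : Set V := {w | Adj v w}

/-- in-neighbours -/
def In (Adj : V → V → Prop) (v : V) : Set V := {w | Adj w v}

/-- pointwise stabilizer of `p a, ..., p b` -/
def Fx (G : Type*) {V : Type*} [Group G] [MulAction G V] (p : ℤ → V) (a b : ℤ) : Subgroup G where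
  carrier := {g | ∀ i, a ≤ i → i ≤ b → g • p i = p i}
  mul_mem' := by
    intro g h hg hh i h1 h2
    rw [mul_smul, hh i h1 h2, hg i h1 h2]
  one_mem' := by
    intro i _ _
    exact one_smul _ _
  inv_mem' := by
    intro g hg i h1 h2
    rw [inv_smul_eq_iff]
    exact (hg i h1 h2).symm

theorem mem_Fx {p : ℤ → V} {a b : ℤ} {g : G} :
    g ∈ Fx G p a b ↔ ∀ i, a ≤ i → i ≤ b → g • p i = p i := Iff.rfl

theorem Fx_mono (p : ℤ → V) {a b a' b' : ℤ} (h1 : a' ≤ a) (h2 : b ≤ b') :
    Fx G p a' b' ≤ Fx G p a b := by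
  intro g hg i hi hj
  exact hg i (h1.trans hi) (hj.trans h2)

theorem Fx_congr {p q : ℤ → V} {a b : ℤ} (h : ∀ i, a ≤ i → i ≤ b → p i = q i) :
    Fx G p a b = Fx G q a b := by
  ext g
  constructor
  · intro hg i hi hj
    rw [← h i hi hj]
    exact hg i hi hj
  · intro hg i hi hj
    rw [h i hi hj]
    exact hg i hi hj

theorem Fx_right (p : ℤ → V) {a b : ℤ} (h : a ≤ b + 1) :
    Fx G p a (b + 1) = Fx G p a b ⊓ stabilizer G (p (b + 1)) := by
  ext g
  rw [Subgroup.mem_inf, mem_stabilizer_iff]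
  constructor
  · intro hg
    exact ⟨fun i hi hj => hg i hi (by omega), hg (b + 1) h le_rfl⟩
  · rintro ⟨hg, hg'⟩ i hi hj
    rcases eq_or_lt_of_le hj with rfl | hlt
    · exact hg'
    · exact hg i hi (by omega)

theorem Fx_left (p : ℤ → V) {a b : ℤ} (h : a ≤ b) :
    Fx G p a b = Fx G p (a + 1) b ⊓ stabilizer G (p a) := by
  ext g
  rw [Subgroup.mem_inf, mem_stabilizer_iff]
  constructor
  · intro hg
    exact ⟨fun i hi hj => hg i (by omega) hj, hg a le_rfl h⟩
  · rintro ⟨hg, hg'⟩ i hi hj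
    rcases eq_or_lt_of_le hi with rfl | hlt
    · exact hg'
    · exact hg i (by omega) hj

theorem Fx_self (p : ℤ → V) (a : ℤ) : Fx G p a a = stabilizer G (p a) := by
  ext g
  rw [mem_stabilizer_iff]
  constructor
  · intro hg
    exact hg a le_rfl le_rfl
  · intro hg i hi hj
    obtain rfl : i = a := le_antisymm hj hi
    exact hg

/-- conjugation of windows -/
theorem mem_Fx_conj {p q : ℤ → V} {a b c : ℤ} (g : G)
    (h : ∀ i, a ≤ i → i ≤ b → g • p i = q (i + c)) (x : G) :
    x ∈ Fx G q (a + c) (b + c) ↔ g⁻¹ * x * g ∈ Fx G p a b := by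
  constructor
  · intro hx i hi hj
    rw [mul_smul, mul_smul, h i hi hj, inv_smul_eq_iff, h i hi hj]
    exact hx (i + c) (by omega) (by omega)
  · intro hx i hi hj
    have h1 := h (i - c) (by omega) (by omega)
    have h2 := hx (i - c) (by omega) (by omega)
    rw [mul_smul, mul_smul, inv_smul_eq_iff, h1] at h2
    simpa using h2

theorem Fixes_mono {g : G} {S S' : Set V} (h : S ⊆ S') (hg : Fixes g S') : Fixes g S :=
  fun s hs => hg s (h hs)

theorem Fixes_mul {g h : G} {S : Set V} (hg : Fixes g S) (hh : Fixes h S) : Fixes (g * h) S := by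
  intro s hs
  rw [mul_smul, hh s hs, hg s hs]

theorem Fixes_inv {g : G} {S : Set V} (hg : Fixes g S) : Fixes g⁻¹ S := by
  intro s hs
  rw [inv_smul_eq_iff]
  exact (hg s hs).symm

theorem Big_mono {A B : Subgroup G} {S : Set V} (h : A ≤ B) (hA : Big A S) : Big B S := by
  intro x hx y hy z hz h1 h2 h3
  obtain ⟨a, ha, hc⟩ := hA x hx y hy z hz h1 h2 h3
  exact ⟨a, h ha, hc⟩

theorem Inv_mono {A B : Subgroup G} {S : Set V} (h : A ≤ B) (hB : Inv B S) : Inv A S :=
  fun a ha s hs => hB a (h ha) s hs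

/-- transport of `Big` by an element of the group -/
theorem Big_conj {A B : Subgroup G} {S S' : Set V} (g : G)
    (h1 : ∀ x, x ∈ B ↔ g⁻¹ * x * g ∈ A) (h2 : ∀ v, v ∈ S' ↔ g⁻¹ • v ∈ S)
    (hA : Big A S) : Big B S' := by
  intro x hx y hy z hz hxy hyz hxz
  obtain ⟨a, ha, e1, e2, e3, e4⟩ := hA (g⁻¹ • x) ((h2 x).1 hx) (g⁻¹ • y) ((h2 y).1 hy)
    (g⁻¹ • z) ((h2 z).1 hz) (by simpa using hxy) (by simpa using hyz) (by simpa using hxz)
  refine ⟨g * a * g⁻¹, (h1 _).2 (by group; simpa using ha), ?_, ?_, ?_, ?_⟩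
  · rw [mul_smul, mul_smul, e1, smul_inv_smul]
  · rw [mul_smul, mul_smul, e2, smul_inv_smul]
  · rw [mul_smul, mul_smul, e3, smul_inv_smul]
  · intro s hs hsx hsy hsz
    rw [mul_smul, mul_smul, e4 (g⁻¹ • s) ((h2 s).1 hs) (by simpa using hsx)
      (by simpa using hsy) (by simpa using hsz), smul_inv_smul]

theorem Fixes_conj {g x : G} {S S' : Set V} (h2 : ∀ v, v ∈ S' ↔ g⁻¹ • v ∈ S) :
    Fixes x S' ↔ Fixes (g⁻¹ * x * g) S := by
  constructor
  · intro hx s hs
    have : g • s ∈ S' := (h2 _).2 (by simpa using hs)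
    rw [mul_smul, mul_smul, hx _ this, inv_smul_smul]
  · intro hx s hs
    have := hx (g⁻¹ • s) ((h2 s).1 hs)
    rw [mul_smul, mul_smul, smul_inv_smul, smul_left_cancel_iff] at this
    exact this

/-- index of a point stabilizer -/
theorem relIndex_stab {A : Subgroup G} {S : Set V} (hfin : S.Finite) (hA : Inv A S) {s : V}
    (hs : s ∈ S) : (A ⊓ stabilizer G s).relIndex A ≠ 0 ∧
      (A ⊓ stabilizer G s).relIndex A ≤ S.ncard := by
  have h1 : (A ⊓ stabilizer G s).relIndex A = (stabilizer A s).index := by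
    rw [Subgroup.relIndex]
    congr 1
    ext x
    rw [Subgroup.mem_subgroupOf, Subgroup.mem_inf, mem_stabilizer_iff, mem_stabilizer_iff]
    constructor
    · rintro ⟨_, h⟩
      exact h
    · intro h
      exact ⟨x.2, h⟩
  have h2 : orbit A s ⊆ S := by
    rintro _ ⟨a, rfl⟩
    exact hA a a.2 s hs
  have h3 : (stabilizer A s).index = (orbit A s).ncard := MulAction.index_stabilizer A s
  have hne : (orbit A s).Nonempty := ⟨s, mem_orbit_self s⟩
  have hfo : (orbit A s).Finite := hfin.subset h2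
  rw [h1, h3]
  refine ⟨?_, Set.ncard_le_ncard h2 hfin⟩
  rw [Ne, Set.ncard_eq_zero hfo]
  exact hne.ne_empty

/-- index of a point stabilizer of a transitive action -/
theorem relIndex_stab_eq {A : Subgroup G} {S : Set V} (hfin : S.Finite) (hA : Inv A S)
    (htr : ∀ x ∈ S, ∀ y ∈ S, ∃ a ∈ A, a • x = y) {s : V}
    (hs : s ∈ S) : (A ⊓ stabilizer G s).relIndex A = S.ncard := by
  have h1 : (A ⊓ stabilizer G s).relIndex A = (stabilizer A s).index := by
    rw [Subgroup.relIndex]
    congr 1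
    ext x
    rw [Subgroup.mem_subgroupOf, Subgroup.mem_inf, mem_stabilizer_iff, mem_stabilizer_iff]
    constructor
    · rintro ⟨_, h⟩
      exact h
    · intro h
      exact ⟨x.2, h⟩
  have h2 : orbit A s = S := by
    apply Set.Subset.antisymm
    · rintro _ ⟨a, rfl⟩
      exact hA a a.2 s hs
    · intro t ht
      obtain ⟨a, ha, e⟩ := htr s hs t ht
      exact ⟨⟨a, ha⟩, e⟩
  rw [h1, MulAction.index_stabilizer A s, h2]

end Pool.Agent.Lib_helper84.BT
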