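import Pool.Agent.Lib_helper84.BT.Trans
import Pool.Agent.Lib_helper40.RND.Final

/-!
# Generic bireversible transducers do not generate Burnside groups: assembly
-/

set_option autoImplicit false

namespace Pool.Agent.Lib_helper84.BT

open Filter Topology

/-- The transducer with states `Fin n`, letters `Fin k`, transitions `δ` and outputs `out` is
bireversible: it is invertible, reversible, and for every letter `b` the map `q ↦ δ q (g q)` is a
permutation, where `g q` is the letter with `out q (g q) = b`. -/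
def IsBireversible {n k : ℕ} (δ : Fin n → Fin k → Fin n) (out : Fin n → Fin k → Fin k) : Prop :=
  (∀ q, Function.Bijective (out q)) ∧ (∀ a, Function.Bijective (fun q => δ q a)) ∧
    ∀ (b : Fin k) (g : Fin n → Fin k), (∀ q, out q (g q) = b) →
      Function.Bijective (fun q => δ q (g q))

/-- The letters generate a group of permutations of the states which contains the alternating
group. -/
def AltLocal {n k : ℕ} (δ : Fin n → Fin k → Fin n) : Prop :=
  alternatingGroup (Fin n) ≤ Subgroup.closure {σ : Equiv.Perm (Fin n) | ∃ a, ∀ q, σ q = δ q a}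

/-- The group generated by the states is not a Burnside group, in the strong form: if every
element of the semigroup generated by the states has finite order, then the group generated by
the states is finite (`f q` is the action of the state `q` on the words). -/
def NotBurnside {n k : ℕ} (δ : Fin n → Fin k → Fin n) (out : Fin n → Fin k → Fin k) : Prop :=
  ∀ f : Fin n → Equiv.Perm (List (Fin k)),
    (∀ q, f q [] = []) → (∀ q a w, f q (a :: w) = out q a :: f (δ q a) w) →
    (∀ g ∈ Submonoid.closure (Set.range f), IsOfFinOrder g) →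
    ((Subgroup.closure (Set.range f) : Set (Equiv.Perm (List (Fin k)))).Finite)

theorem notBurnside_of_altLocal {n k : ℕ} (δ : Fin n → Fin k → Fin n)
    (out : Fin n → Fin k → Fin k) (hn : 8 ≤ n) (hout : ∀ q, Function.Bijective (out q))
    (hδ : ∀ a, Function.Bijective (fun q => δ q a)) (hF : AltLocal δ) : NotBurnside δ out := by
  intro f hf0 hf htor
  refine finite_of_periodic δ out (by simpa using hn) hout hδ hF f hf0 hf ?_
  intro v
  apply htor
  induction v with
  | nil => exact one_mem _
  | cons q v ih => exact mul_mem ih (Submonoid.subset_closure ⟨q, rfl⟩)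

theorem isBireversible_iff {n k : ℕ} (δ : Fin n → Fin k → Fin n) (out : Fin n → Fin k → Fin k) :
    IsBireversible δ out ↔ RND40.BirT δ out := by
  constructor
  · rintro ⟨h1, h2, h3⟩
    refine ⟨h1, h2, ?_⟩
    rw [← Finite.injective_iff_bijective]
    rintro ⟨q, x⟩ ⟨q', x'⟩ h
    have e1 : δ q x = δ q' x' := (Prod.ext_iff.1 h).1
    have e2 : out q x = out q' x' := (Prod.ext_iff.1 h).2
    have hg : ∀ q0, ∃ y, out q0 y = out q x := fun q0 => (h1 q0).2 _
    choose g hg using hg
    have gq : g q = x := (h1 q).1 (hg q)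
    have gq' : g q' = x' := (h1 q').1 ((hg q').trans e2)
    have h4 := (h3 _ g hg).1 (a₁ := q) (a₂ := q') (by
      show δ q (g q) = δ q' (g q')
      rw [gq, gq', e1])
    subst h4
    rw [← gq, ← gq']
  · rintro ⟨h1, h2, h3⟩
    refine ⟨h1, h2, ?_⟩
    intro b g hg
    rw [← Finite.injective_iff_bijective]
    intro q q' h
    have h4 := h3.1 (a₁ := (q, g q)) (a₂ := (q', g q')) (by
      show (δ q (g q), out q (g q)) = (δ q' (g q'), out q' (g q'))
      rw [hg, hg]
      have h5 : δ q (g q) = δ q' (g q') := h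
      rw [h5])
    exact (Prod.ext_iff.1 h4).1

theorem ratio_tendsto (k : ℕ) (hk : 2 ≤ k) :
    Tendsto (fun n : ℕ =>
      (Nat.card {A : (Fin n → Fin k → Fin n) × (Fin n → Fin k → Fin k) //
          IsBireversible A.1 A.2 ∧ AltLocal A.1 ∧ NotBurnside A.1 A.2} : ℝ) /
        (Nat.card {A : (Fin n → Fin k → Fin n) × (Fin n → Fin k → Fin k) //
          IsBireversible A.1 A.2} : ℝ)) atTop (𝓝 1) := by
  rw [Metric.tendsto_atTop]
  intro ε hε
  obtain ⟨n0, h0⟩ := RND40.generic_transducers k hk (ε / 2) (by positivity)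
  refine ⟨max n0 8, fun n hn => ?_⟩
  have hn0 : n0 ≤ n := le_trans (le_max_left _ _) hn
  have hn8 : 8 ≤ n := le_trans (le_max_right _ _) hn
  have h := h0 n hn0
  -- sets
  let U : Type := (Fin n → Fin k → Fin n) × (Fin n → Fin k → Fin k)
  have hconv : ∀ P : U → Prop, (Nat.card {A : U // P A} : ℝ) = (({A : U | P A}).ncard : ℝ) := by
    intro P
    rfl
  have hB : {A : U | RND40.BirT A.1 A.2} = {A : U | IsBireversible A.1 A.2} := by
    ext A
    exact (isBireversible_iff A.1 A.2).symm
  have hC : {A : U | RND40.BirT A.1 A.2 ∧ ¬ alternatingGroup (Fin n) ≤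
      Subgroup.closure {σ : Equiv.Perm (Fin n) | ∃ x, ∀ q, σ q = A.1 q x}} =
      {A : U | IsBireversible A.1 A.2} \
        {A : U | IsBireversible A.1 A.2 ∧ AltLocal A.1 ∧ NotBurnside A.1 A.2} := by
    ext A
    constructor
    · rintro ⟨h1, h2⟩
      refine ⟨(isBireversible_iff A.1 A.2).2 h1, ?_⟩
      rintro ⟨_, h3, _⟩
      exact h2 h3
    · rintro ⟨h1, h2⟩
      refine ⟨(isBireversible_iff A.1 A.2).1 h1, ?_⟩
      intro h3
      have h1' : IsBireversible A.1 A.2 := h1
      exact h2 ⟨h1, h3, notBurnside_of_altLocal A.1 A.2 hn8 h1'.1 h1'.2.1 h3⟩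
  have h' : (({A : U | IsBireversible A.1 A.2} \
        {A : U | IsBireversible A.1 A.2 ∧ AltLocal A.1 ∧ NotBurnside A.1 A.2}).ncard : ℝ) ≤
      ε / 2 * (({A : U | IsBireversible A.1 A.2}).ncard : ℝ) := by
    rw [← hC, ← hB]
    exact h
  have hsub : {A : U | IsBireversible A.1 A.2 ∧ AltLocal A.1 ∧ NotBurnside A.1 A.2} ⊆
      {A : U | IsBireversible A.1 A.2} := fun A hA => hA.1
  have hfin : ({A : U | IsBireversible A.1 A.2} : Set U).Finite := Set.toFinite _
  have hsum := Set.ncard_sdiff_add_ncard_of_subset hsub hfin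
  have hpos : 0 < ({A : U | IsBireversible A.1 A.2} : Set U).ncard := by
    rw [Set.ncard_pos hfin]
    refine ⟨(fun q _ => q, fun _ a => a), ?_, ?_, ?_⟩
    · intro q
      exact Function.bijective_id
    · intro a
      exact Function.bijective_id
    · intro b g _
      exact Function.bijective_id
  have hpos' : (0 : ℝ) < (({A : U | IsBireversible A.1 A.2} : Set U).ncard : ℝ) := by
    exact_mod_cast hpos
  have hsum' : (({A : U | IsBireversible A.1 A.2} \
        {A : U | IsBireversible A.1 A.2 ∧ AltLocal A.1 ∧ NotBurnside A.1 A.2}).ncard : ℝ) +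
      (({A : U | IsBireversible A.1 A.2 ∧ AltLocal A.1 ∧ NotBurnside A.1 A.2}).ncard : ℝ) =
      (({A : U | IsBireversible A.1 A.2}).ncard : ℝ) := by
    exact_mod_cast hsum
  show dist ((({A : U | IsBireversible A.1 A.2 ∧ AltLocal A.1 ∧
      NotBurnside A.1 A.2}).ncard : ℝ) /
      (({A : U | IsBireversible A.1 A.2}).ncard : ℝ)) 1 < ε
  rw [Real.dist_eq, abs_lt]
  have hD0 : (0 : ℝ) ≤ (({A : U | IsBireversible A.1 A.2} \
        {A : U | IsBireversible A.1 A.2 ∧ AltLocal A.1 ∧ NotBurnside A.1 A.2}).ncard : ℝ) := by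
    positivity
  constructor
  · rw [lt_sub_iff_add_lt, lt_div_iff₀ hpos']
    nlinarith
  · rw [sub_lt_iff_lt_add, div_lt_iff₀ hpos']
    nlinarith

end Pool.Agent.Lib_helper84.BT
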