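import Pool.Agent.Lib_helper84.BT.Fx

set_option autoImplicit false

/-! The directed graph: paths, transitivity. -/

namespace Pool.Agent.Lib_helper84.BT

open MulAction

variable {G V : Type*} [Group G] [MulAction G V]

theorem exists_fourth {S : Set V} (h : 4 ≤ S.ncard) (x y z : V) :
    ∃ w ∈ S, w ≠ x ∧ w ≠ y ∧ w ≠ z := by
  classical
  have h1 : ({x, y, z} : Set V).ncard < S.ncard := by
    refine lt_of_le_of_lt ?_ h
    refine le_trans (Set.ncard_insert_le _ _) ?_
    have := Set.ncard_insert_le y ({z} : Set V)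
    rw [Set.ncard_singleton] at this
    omega
  obtain ⟨w, hw, hw'⟩ := Set.exists_mem_notMem_of_ncard_lt_ncard h1 (by
    apply Set.toFinite)
  refine ⟨w, hw, ?_, ?_, ?_⟩ <;> intro h <;> subst h <;> simp at hw'

theorem Big.tr {A : Subgroup G} {S : Set V} (hA : Big A S) (h : 4 ≤ S.ncard) {x y : V}
    (hx : x ∈ S) (hy : y ∈ S) : ∃ a ∈ A, a • x = y := by
  by_cases hxy : x = y
  · exact ⟨1, A.one_mem, by simp [hxy]⟩
  · obtain ⟨z, hz, h1, h2, _⟩ := exists_fourth h x y y
    obtain ⟨a, ha, e, _⟩ := hA x hx y hy z hz hxy h2.symm h1.symm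
    exact ⟨a, ha, e⟩

/-- a big group moves `y` fixing `x` -/
theorem Big.move {A : Subgroup G} {S : Set V} (hA : Big A S) (h : 4 ≤ S.ncard) {x y y' : V}
    (hx : x ∈ S) (hy : y ∈ S) (hy' : y' ∈ S) (hxy : x ≠ y) (hxy' : x ≠ y') :
    ∃ a ∈ A, a • x = x ∧ a • y = y' := by
  by_cases hyy : y = y'
  · exact ⟨1, A.one_mem, by simp, by simp [hyy]⟩
  · obtain ⟨z, hz, h1, h2, h3⟩ := exists_fourth h x y y'
    obtain ⟨a, ha, e1, e2, e3, e4⟩ := hA y hy y' hy' z hz hyy h3.symm h2.symm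
    exact ⟨a, ha, e4 x hx hxy hxy' h1.symm, e1⟩

theorem Big.tr2 {A : Subgroup G} {S : Set V} (hA : Big A S) (hi : Inv A S) (h : 4 ≤ S.ncard)
    {x y x' y' : V} (hx : x ∈ S) (hy : y ∈ S) (hx' : x' ∈ S) (hy' : y' ∈ S)
    (hxy : x ≠ y) (hxy' : x' ≠ y') : ∃ a ∈ A, a • x = x' ∧ a • y = y' := by
  obtain ⟨a, ha, e⟩ := hA.tr h hx hx'
  have h1 : a • y ∈ S := hi a ha y hy
  have h2 : x' ≠ a • y := by
    rw [← e]
    intro h
    exact hxy (MulAction.injective a h)
  obtain ⟨b, hb, e1, e2⟩ := hA.move h hx' h1 hy' h2 hxy'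
  exact ⟨b * a, A.mul_mem hb ha, by rw [mul_smul, e, e1], by rw [mul_smul, e2]⟩

/-- a directed path on the window `[a,b]` -/
def Path (Adj : V → V → Prop) (p : ℤ → V) (a b : ℤ) : Prop :=
  ∀ i, a ≤ i → i < b → Adj (p i) (p (i + 1))

/-- the standing assumptions -/
structure Gr (G : Type*) {V : Type*} [Group G] [MulAction G V] (n : ℕ)
    (Adj : V → V → Prop) : Prop where
  adj : ∀ (g : G) (v w : V), Adj v w → Adj (g • v) (g • w)
  out : ∀ v, (Out Adj v).ncard = n
  inn : ∀ v, (In Adj v).ncard = n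
  tr : ∀ v w : V, ∃ g : G, g • v = w
  big : ∀ v, Big (stabilizer G v) (Out Adj v)
  hn : 8 ≤ n

variable {n : ℕ} {Adj : V → V → Prop}

theorem Path.mono {p : ℤ → V} {a b a' b' : ℤ} (h : Path Adj p a b) (h1 : a ≤ a')
    (h2 : b' ≤ b) : Path Adj p a' b' := fun i hi hj => h i (h1.trans hi) (lt_of_lt_of_le hj h2)

theorem Path.congr {p q : ℤ → V} {a b : ℤ} (h : Path Adj p a b)
    (e : ∀ i, a ≤ i → i ≤ b → p i = q i) : Path Adj q a b := by
  intro i hi hj
  rw [← e i hi (by omega), ← e (i + 1) (by omega) (by omega)]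
  exact h i hi hj

namespace Gr

variable (H : Gr G n Adj)

include H

theorem adj_iff (g : G) (v w : V) : Adj (g • v) (g • w) ↔ Adj v w := by
  constructor
  · intro h
    have := H.adj g⁻¹ _ _ h
    simpa using this
  · exact H.adj g v w

theorem mem_Out (g : G) (v w : V) : g • w ∈ Out Adj (g • v) ↔ w ∈ Out Adj v :=
  H.adj_iff g v w

theorem mem_In (g : G) (v w : V) : g • w ∈ In Adj (g • v) ↔ w ∈ In Adj v :=
  H.adj_iff g w v

theorem inv_Out {A : Subgroup G} {v : V} (hA : A ≤ stabilizer G v) : Inv A (Out Adj v) := by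
  intro a ha w hw
  have h1 : a • v = v := hA ha
  have := (H.mem_Out a v w).2 hw
  rwa [h1] at this

theorem inv_In {A : Subgroup G} {v : V} (hA : A ≤ stabilizer G v) : Inv A (In Adj v) := by
  intro a ha w hw
  have h1 : a • v = v := hA ha
  have := (H.mem_In a v w).2 hw
  rwa [h1] at this

theorem fin_Out (v : V) : (Out Adj v).Finite := by
  apply Set.finite_of_ncard_ne_zero
  rw [H.out]
  have := H.hn
  omega

theorem fin_In (v : V) : (In Adj v).Finite := by
  apply Set.finite_of_ncard_ne_zero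
  rw [H.inn]
  have := H.hn
  omega

theorem four_Out (v : V) : 4 ≤ (Out Adj v).ncard := by
  rw [H.out]
  have := H.hn
  omega

theorem path_smul (g : G) {p : ℤ → V} {a b : ℤ} (h : Path Adj p a b) :
    Path Adj (fun i => g • p i) a b := fun i hi hj => H.adj g _ _ (h i hi hj)

end Gr

/-- transitivity on the paths with `m` edges -/
def PT (G : Type*) {V : Type*} [Group G] [MulAction G V] (Adj : V → V → Prop) (m : ℕ) : Prop :=
  ∀ (p q : ℤ → V) (a b : ℤ), Path Adj p a (a + m) → Path Adj q b (b + m) →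
    ∃ g : G, ∀ i : ℤ, 0 ≤ i → i ≤ m → g • p (a + i) = q (b + i)

/-- all paths with `m` edges have a big out-action -/
def AllBig (G : Type*) {V : Type*} [Group G] [MulAction G V] (Adj : V → V → Prop) (m : ℕ) :
    Prop := ∀ (p : ℤ → V) (a : ℤ), Path Adj p a (a + m) →
      Big (Fx G p a (a + m)) (Out Adj (p (a + m)))

namespace Gr

variable (H : Gr G n Adj)

include H

theorem PT_zero : PT G Adj 0 := by
  intro p q a b _ _
  obtain ⟨g, hg⟩ := H.tr (p a) (q b)
  refine ⟨g, fun i h1 h2 => ?_⟩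
  obtain rfl : i = 0 := by
    have : i ≤ 0 := by simpa using h2
    omega
  simpa using hg

theorem AllBig_zero : AllBig G Adj 0 := by
  intro p a _
  have : a + ((0 : ℕ) : ℤ) = a := by simp
  rw [this, Fx_self]
  exact H.big (p a)

theorem Fx_le_stab (p : ℤ → V) {a b i : ℤ} (h1 : a ≤ i) (h2 : i ≤ b) :
    Fx G p a b ≤ stabilizer G (p i) := fun _ hg => hg i h1 h2

theorem PT_succ {m : ℕ} (h : PT G Adj m) (hb : AllBig G Adj m) : PT G Adj (m + 1) := by
  intro p q a b hp hq
  have hp' : Path Adj p a (a + m) := hp.mono le_rfl (by push_cast; omega)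
  have hq' : Path Adj q b (b + m) := hq.mono le_rfl (by push_cast; omega)
  obtain ⟨g, hg⟩ := h p q a b hp' hq'
  have h1 : q (b + m + 1) ∈ Out Adj (q (b + m)) := hq (b + m) (by omega) (by push_cast; omega)
  have h2 : g • p (a + m + 1) ∈ Out Adj (q (b + m)) := by
    rw [← hg m (by omega) le_rfl]
    exact H.adj g _ _ (hp (a + m) (by omega) (by push_cast; omega))
  obtain ⟨x, hx, e⟩ := (hb q b hq').tr (H.four_Out _) h2 h1
  refine ⟨x * g, fun i hi hj => ?_⟩
  rw [mul_smul]
  rcases lt_or_ge (m : ℤ) i with hlt | hle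
  · obtain rfl : i = m + 1 := by push_cast at hj; omega
    rw [show a + ((m : ℤ) + 1) = a + m + 1 by ring, show b + ((m : ℤ) + 1) = b + m + 1 by ring]
    exact e
  · rw [hg i hi hle]
    exact hx (b + i) (by omega) (by omega)

end Gr

end Pool.Agent.Lib_helper84.BT
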