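import Pool.Agent.Lib_helper84.BT.DD

set_option autoImplicit false

/-! The graph theorem. -/

namespace Pool.Agent.Lib_helper84.BT

open MulAction

variable {G V : Type*} [Group G] [MulAction G V] {n : ℕ} {Adj : V → V → Prop}

/-- the end points of the paths of length `i` from `v` -/
def Ball (Adj : V → V → Prop) (v : V) : ℕ → Set V
  | 0 => {v}
  | (i + 1) => ⋃ w ∈ Ball Adj v i, Out Adj w

namespace Gr

variable (H : Gr G n Adj)

include H

theorem Ball_fin (v : V) (i : ℕ) : (Ball Adj v i).Finite := by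
  induction i with
  | zero => exact Set.finite_singleton v
  | succ i ih => exact ih.biUnion (fun w _ => H.fin_Out w)

omit H in
theorem mem_Ball {p : ℤ → V} {a : ℤ} (hp : ∀ b, Path Adj p a b) (i : ℕ) :
    p (a + i) ∈ Ball Adj (p a) i := by
  induction i with
  | zero => simp [Ball]
  | succ i ih =>
    show _ ∈ ⋃ w ∈ Ball Adj (p a) i, Out Adj w
    refine Set.mem_biUnion ih ?_
    rw [show a + ((i + 1 : ℕ) : ℤ) = a + i + 1 by push_cast; ring]
    exact hp (a + i + 1) (a + i) (by omega) (by omega)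

theorem Fx_relIndex_ne {p : ℤ → V} (hp : ∀ b, Path Adj p 0 b) (l : ℕ) :
    (Fx G p 0 l).relIndex (stabilizer G (p 0)) ≠ 0 := by
  induction l with
  | zero =>
    rw [show ((0 : ℕ) : ℤ) = 0 by simp, Fx_self]
    simp
  | succ l ih =>
    refine Subgroup.relIndex_ne_zero_trans ?_ ih
    rw [show ((l + 1 : ℕ) : ℤ) = (l : ℤ) + 1 by push_cast; ring, Fx_right p (by omega)]
    exact (relIndex_stab (H.fin_Out (p l)) (H.inv_Out (H.Fx_le_stab p (by omega) le_rfl))
      (hp (l + 1) l (by omega) (by omega))).1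

/-- one step of growth -/
theorem growth {p : ℤ → V} (hp : ∀ b, Path Adj p 0 b) (l l' : ℕ) (hl : l < l') (S : Set V)
    (hS : 2 ≤ S.ncard) (hfin : S.Finite) (hinv : Inv (Fx G p 0 l) S)
    (htr : ∀ x ∈ S, ∀ y ∈ S, ∃ a ∈ Fx G p 0 l, a • x = y) (hm : p (l + 1) ∈ S) {N : ℕ}
    (hN : N ≤ (Fx G p 0 l).relIndex (stabilizer G (p 0))) :
    2 * N ≤ (Fx G p 0 l').relIndex (stabilizer G (p 0)) := by
  have h1 : (Fx G p 0 (l + 1)).relIndex (Fx G p 0 l) = S.ncard := by
    rw [Fx_right p (by omega)]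
    exact relIndex_stab_eq hfin hinv htr hm
  have h2 := Subgroup.relIndex_mul_relIndex (Fx G p 0 (l + 1)) (Fx G p 0 l)
    (stabilizer G (p 0)) (Fx_mono p le_rfl (by omega)) (H.Fx_le_stab p le_rfl (by omega))
  rw [h1] at h2
  have h3 : Fx G p 0 l' ≤ Fx G p 0 (l + 1) := Fx_mono p le_rfl (by omega)
  have h4 := Subgroup.relIndex_le_of_le_left h3 (H.Fx_relIndex_ne hp l')
  calc 2 * N ≤ S.ncard * (Fx G p 0 l).relIndex (stabilizer G (p 0)) := Nat.mul_le_mul hS hN
    _ = (Fx G p 0 (l + 1)).relIndex (stabilizer G (p 0)) := h2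
    _ ≤ _ := h4

end Gr

namespace Fail

variable {k : ℕ} (H : Fail G n Adj k)

include H

theorem growth_pat {y : ℕ} (hy : 0 < y) (hnf : ∀ r, NonFail G Adj k y r) (p : ℤ → V)
    (hp : ∀ b, Path Adj p 0 b) (hL : ∀ i, 0 ≤ i → (Lk G k p i ↔ ¬ (y : ℤ) ∣ i)) (r : ℕ) :
    2 ^ r ≤ (Fx G p 0 (k + 1 + r * y : ℕ)).relIndex (stabilizer G (p 0)) := by
  induction r with
  | zero =>
    have := H.Fx_relIndex_ne hp (k + 1 + 0 * y)
    rw [pow_zero]
    omega
  | succ r ih =>
    rw [pow_succ, mul_comm]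
    have hry : (0 : ℤ) ≤ r * y := by positivity
    have e : ((k + 1 + r * y : ℕ) : ℤ) = 0 + k + 1 + r * y := by push_cast; ring
    have hpat : Pat G Adj k y p 0 r := by
      refine ⟨hp _, ?_⟩
      intro i h1 _
      rw [hL i h1, sub_zero]
    have hbig := hnf r p 0 hpat
    rw [← e] at hbig
    have hpb : Path Adj p (((k + 1 + r * y : ℕ) : ℤ) - k - 1) ((k + 1 + r * y : ℕ) : ℤ) :=
      (hp _).mono (by omega) le_rfl
    have hn := H.hn
    have hcard := H.SO_ncard p _ hpb
    refine H.growth hp (k + 1 + r * y) (k + 1 + (r + 1) * y) ?_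
      (SO G Adj k p ((k + 1 + r * y : ℕ) : ℤ)) (by omega) (H.SO_fin p _)
      (H.SO_inv p _ hpb (Fx_mono p (by omega) le_rfl))
      (fun x hx y hy => hbig.tr (by omega) hx hy) ?_ ih
    · have : (r + 1) * y = r * y + y := by ring
      omega
    · rw [H.mem_SO_iff p _ ((hp _).mono (by omega) le_rfl), hL _ (by omega), not_not]
      rw [show ((k + 1 + r * y : ℕ) : ℤ) - k - 1 = r * y by push_cast; ring]
      exact Dvd.intro_left _ rfl

/-- a periodic path which follows the pattern -/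
theorem exists_periodic {y : ℕ} (hy : 0 < y) (T : Subgroup G)
    (hT : ∀ v w : V, ∃ g ∈ T, g • v = w) (v : V) :
    ∃ γ ∈ T, ∃ (p : ℤ → V) (t : ℕ), 0 < t ∧ (∀ b, Path Adj p 0 b) ∧
      (∀ i, 0 ≤ i → γ • p i = p (i + t)) ∧ (∀ i, 0 ≤ i → (Lk G k p i ↔ ¬ (y : ℤ) ∣ i)) := by
  classical
  have hs : ∀ v : V, ∃ w, Adj v w := by
    intro v
    have hne : (Out Adj v).Nonempty := by
      apply Set.nonempty_of_ncard_ne_zero
      rw [H.out]
      have := H.hn
      omega
    exact hne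
  choose s hs using hs
  let p0 : ℤ → V := fun i => s^[i.toNat] v
  have hp0 : ∀ b, Path Adj p0 0 b := by
    intro b i h1 _
    show Adj (s^[i.toNat] v) (s^[(i + 1).toNat] v)
    rw [show (i + 1).toNat = i.toNat + 1 by omega, Function.iterate_succ_apply']
    exact hs _
  obtain ⟨q, _, hq2, hq3⟩ := H.extend p0 0 (hp0 _) (fun i => ¬ (y : ℤ) ∣ i)
  -- pigeonhole
  have hτ : ∀ l : ℕ, ∃ g ∈ T, g • q (l * y) = v := fun l => hT _ _
  choose τ hτT hτ using hτ
  have hBall : ∀ l i : ℕ, τ l • q (l * y + i) ∈ Ball Adj v i := by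
    intro l i
    have hpath : ∀ b, Path Adj (fun j => τ l • q j) (l * y) b := by
      intro b j h1 _
      exact H.adj _ _ _ (hq2 (j + 1) j (le_trans (by positivity) h1) (by omega))
    have := Gr.mem_Ball hpath i
    simpa [hτ l] using this
  let f : ℕ → (Fin (k + 3) → V) := fun l i => τ l • q (l * y + (i : ℕ))
  have hf : ∀ l, f l ∈ Set.pi Set.univ (fun i : Fin (k + 3) => Ball Adj v i) :=
    fun l i _ => hBall l i
  have hfin : (Set.pi Set.univ (fun i : Fin (k + 3) => Ball Adj v i)).Finite :=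
    Set.Finite.pi (fun i => H.Ball_fin v i)
  obtain ⟨l, l', hll, hff⟩ := hfin.exists_lt_map_eq_of_forall_mem hf
  have hw : ∀ i : ℤ, 0 ≤ i → i ≤ k + 2 → ((τ l')⁻¹ * τ l) • q (l * y + i) = q (l' * y + i) := by
    intro i h1 h2
    lift i to ℕ using h1
    have h3 := congrFun hff ⟨i, by omega⟩
    have h4 : τ l • q (l * y + (i : ℕ)) = τ l' • q (l' * y + (i : ℕ)) := h3
    rw [mul_smul, h4, inv_smul_smul]
  set γ := (τ l')⁻¹ * τ l with hγ
  have hγT : γ ∈ T := T.mul_mem (T.inv_mem (hτT l')) (hτT l)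
  obtain ⟨t, ht⟩ : ∃ t : ℕ, t = (l' - l) * y := ⟨_, rfl⟩
  have ht0 : 0 < t := by
    rw [ht]
    exact Nat.mul_pos (by omega) hy
  have ht0' : (0 : ℤ) < t := by exact_mod_cast ht0
  have htz : (l' : ℤ) * y = l * y + t := by
    rw [ht]
    push_cast [Nat.cast_sub hll.le]
    ring
  let q1 : ℤ → V := fun i => q (l * y + i)
  have hq1 : ∀ i : ℤ, 0 ≤ i → i ≤ k + 2 → γ • q1 i = q1 (i + t) := by
    intro i h1 h2
    show γ • q (l * y + i) = q (l * y + (i + t))
    rw [hw i h1 h2, htz]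
    congr 1
    ring
  have hly : (0 : ℤ) ≤ l * y := by positivity
  have hq1path : ∀ i, 0 ≤ i → Adj (q1 i) (q1 (i + 1)) := by
    intro i hi
    show Adj (q (l * y + i)) (q (l * y + (i + 1)))
    rw [← add_assoc]
    exact hq2 _ _ (by omega) (lt_add_one _)
  have hq1L : ∀ i, 0 ≤ i → (Lk G k q1 i ↔ ¬ (y : ℤ) ∣ i) := by
    intro i hi
    have h1 := Lk_conj (G := G) (k := k) (p := q1) (q := q) (j := i) (c := l * y) 1
      (fun j _ _ => by
        rw [one_smul]
        show q (l * y + j) = q (j + l * y)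
        rw [add_comm])
    rw [h1, hq3 _ (by omega)]
    have h2 : (y : ℤ) ∣ i + l * y ↔ (y : ℤ) ∣ i := by
      rw [Int.dvd_add_left]
      exact Dvd.intro_left _ rfl
    rw [h2]
  -- the periodic path
  let p : ℤ → V := fun i => γ ^ (i / t) • q1 (i % t)
  have hp1 : ∀ i, p (i + t) = γ • p i := by
    intro i
    show γ ^ ((i + t) / t) • q1 ((i + t) % t) = γ • γ ^ (i / t) • q1 (i % t)
    rw [Int.add_emod_right, Int.add_ediv_of_dvd_right (dvd_refl _), Int.ediv_self ht0'.ne',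
      smul_smul, ← zpow_one_add, add_comm (1 : ℤ)]
  have hp2 : ∀ (j : ℕ) (i : ℤ), p (i + j * t) = γ ^ j • p i := by
    intro j
    induction j with
    | zero => intro i; simp
    | succ j ih =>
      intro i
      rw [show i + ((j + 1 : ℕ) : ℤ) * t = (i + j * t) + t by push_cast; ring, hp1, ih,
        smul_smul, ← pow_succ']
  have hp3 : ∀ i : ℕ, i ≤ t + (k + 2) → p i = q1 i := by
    intro i
    induction i using Nat.strong_induction_on with
    | _ i ih =>
      intro hi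
      rcases lt_or_ge i t with hlt | hge
      · show γ ^ ((i : ℤ) / t) • q1 ((i : ℤ) % t) = q1 i
        rw [Int.ediv_eq_zero_of_lt (by omega) (by exact_mod_cast hlt),
          Int.emod_eq_of_lt (by omega) (by exact_mod_cast hlt), zpow_zero, one_smul]
      · have h1 := ih (i - t) (by omega) (by omega)
        have h2 := hp1 ((i - t : ℕ) : ℤ)
        rw [show ((i - t : ℕ) : ℤ) + t = i by omega] at h2
        rw [h2, h1, hq1 _ (by omega) (by omega)]
        congr 1
        omega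
  have hdecomp : ∀ i : ℤ, 0 ≤ i → ∃ (i0 : ℕ) (j : ℕ), i0 < t ∧ i = i0 + j * t := by
    intro i hi
    lift i to ℕ using hi
    refine ⟨i % t, i / t, Nat.mod_lt _ ht0, ?_⟩
    have := Nat.mod_add_div i t
    have h2 : i % t + i / t * t = i := by rw [mul_comm (i / t)]; exact this
    exact_mod_cast h2.symm
  refine ⟨γ, hγT, p, t, ht0, ?_, ?_, ?_⟩
  · intro b i h1 _
    obtain ⟨i0, j, h2, rfl⟩ := hdecomp i h1
    rw [show (i0 : ℤ) + j * t + 1 = (i0 + 1 : ℕ) + j * t by push_cast; ring, hp2, hp2]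
    apply H.adj
    rw [hp3 i0 (by omega), hp3 (i0 + 1) (by omega)]
    have := hq1path i0 (by omega)
    exact_mod_cast this
  · intro i _
    exact (hp1 i).symm
  · intro i h1
    obtain ⟨i0, j, h2, rfl⟩ := hdecomp i h1
    have h3 := Lk_conj (G := G) (k := k) (p := p) (q := p) (j := (i0 : ℤ)) (c := j * t) (γ ^ j)
      (fun l _ _ => (hp2 j l).symm)
    rw [← h3, Lk_congr (p := p) (q := q1) (j := (i0 : ℤ)) (fun l h4 h5 => by
      have h6 := hp3 l.toNat (by omega)
      rwa [show ((l.toNat : ℕ) : ℤ) = l by omega] at h6), hq1L _ (by omega)]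
    have h7 : (y : ℤ) ∣ (i0 : ℤ) + j * t ↔ (y : ℤ) ∣ (i0 : ℤ) := by
      rw [Int.dvd_add_left]
      have : (t : ℤ) = ((l' - l : ℕ) : ℤ) * y := by rw [ht]; push_cast; ring
      rw [this]
      exact Dvd.intro_left (j * ((l' - l : ℕ) : ℤ)) (by ring)
    rw [h7]

end Fail

/-- The graph theorem. -/
theorem graph_thm (n : ℕ) (hn : 8 ≤ n) (Adj : V → V → Prop)
    (hAdj : ∀ (g : G) (v w : V), Adj v w → Adj (g • v) (g • w))
    (hout : ∀ v, (Out Adj v).ncard = n) (hin : ∀ v, (In Adj v).ncard = n)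
    (T : Subgroup G) (hT : ∀ v w : V, ∃ g ∈ T, g • v = w)
    (hbig : ∀ v, Big (stabilizer G v) (Out Adj v))
    (hper : ∀ γ ∈ T, ∀ (p : ℤ → V) (t : ℕ), 0 < t → (∀ i, 0 ≤ i → Adj (p i) (p (i + 1))) →
      (∀ i, 0 ≤ i → γ • p i = p (i + t)) →
      ∃ N : ℕ, ∀ l : ℕ, (Fx G p 0 l).relIndex (stabilizer G (p 0)) ≤ N) (v : V) :
    ∃ D : Subgroup G, D ≤ stabilizer G v ∧ D.relIndex (stabilizer G v) ≠ 0 ∧
      ∀ w, Relation.ReflTransGen Adj v w → ∀ g ∈ D, g • w = w := by
  classical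
  have HG : Gr G n Adj := ⟨hAdj, hout, hin, fun v w => by
    obtain ⟨g, _, h⟩ := hT v w
    exact ⟨g, h⟩, hbig, hn⟩
  by_cases hall : ∀ j, AllBig G Adj j
  · exfalso
    have hne : (Out Adj v).Nonempty := by
      apply Set.nonempty_of_ncard_ne_zero
      rw [hout]
      omega
    obtain ⟨w, hw⟩ := hne
    obtain ⟨γ, hγ, hγw⟩ := hT v w
    let p : ℤ → V := fun i => γ ^ i • v
    have hp : ∀ b, Path Adj p 0 b := by
      intro b i _ _
      show Adj (γ ^ i • v) (γ ^ (i + 1) • v)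
      rw [zpow_add_one, mul_smul, hγw]
      exact hAdj _ _ _ hw
    obtain ⟨N, hN⟩ := hper γ hγ p 1 one_pos (fun i hi => hp (i + 1) i hi (by omega)) (by
      intro i _
      show γ • γ ^ i • v = γ ^ (i + ((1 : ℕ) : ℤ)) • v
      rw [smul_smul, ← zpow_one_add, add_comm (1 : ℤ)]
      simp)
    have hgrow : ∀ l : ℕ, 2 ^ l ≤ (Fx G p 0 l).relIndex (stabilizer G (p 0)) := by
      intro l
      induction l with
      | zero =>
        have := HG.Fx_relIndex_ne hp 0
        rw [pow_zero]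
        omega
      | succ l ih =>
        rw [pow_succ, mul_comm]
        have hb := hall l p 0 (hp _)
        rw [zero_add] at hb
        refine HG.growth hp l (l + 1) (by omega) (Out Adj (p l)) (by rw [hout]; omega)
          (HG.fin_Out _) (HG.inv_Out (HG.Fx_le_stab p (by omega) le_rfl))
          (fun x hx y hy => hb.tr (HG.four_Out _) hx hy) (hp (l + 1) l (by omega) (by omega)) ih
    have h1 := hgrow N
    have h2 := hN N
    have h3 : N < 2 ^ N := Nat.lt_two_pow_self
    omega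
  · push Not at hall
    obtain ⟨k, hk1, hk2⟩ : ∃ k, (∀ j ≤ k, AllBig G Adj j) ∧ ¬ AllBig G Adj (k + 1) := by
      have h0 : Nat.find hall ≠ 0 := by
        intro h
        have := Nat.find_spec hall
        rw [h] at this
        exact this HG.AllBig_zero
      obtain ⟨k, hk⟩ := Nat.exists_eq_succ_of_ne_zero h0
      refine ⟨k, ?_, ?_⟩
      · intro j hj
        have := Nat.find_min hall (m := j) (by omega)
        simpa using this
      · have := Nat.find_spec hall
        rw [hk] at this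
        exact this
    have H : Fail G n Adj k := ⟨HG, hk1, hk2⟩
    by_cases hfail : ∀ y : ℕ, 0 < y → ∃ r, ¬ NonFail G Adj k y r
    · exact H.caseII hfail v
    · exfalso
      push Not at hfail
      obtain ⟨y, hy, hnf⟩ := hfail
      obtain ⟨γ, hγ, p, t, ht, hp, hpt, hL⟩ := H.exists_periodic hy T hT v
      obtain ⟨N, hN⟩ := hper γ hγ p t ht (fun i hi => hp (i + 1) i hi (by omega)) hpt
      have h1 := H.growth_pat hy hnf p hp hL N
      have h2 := hN (k + 1 + N * y)
      have h3 : N < 2 ^ N := Nat.lt_two_pow_self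
      omega

end Pool.Agent.Lib_helper84.BT
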