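import Pool.Agent.Lib_helper84.BT.Side

set_option autoImplicit false

/-! The `y`-pattern and its first failure. -/

namespace Pool.Agent.Lib_helper84.BT

open MulAction

variable {G V : Type*} [Group G] [MulAction G V] {n : ℕ} {Adj : V → V → Prop}

/-- a path on `[a, a+k+1+r*y]` which turns exactly every `y` steps -/
def Pat (G : Type*) {V : Type*} [Group G] [MulAction G V] (Adj : V → V → Prop) (k y : ℕ)
    (p : ℤ → V) (a : ℤ) (r : ℕ) : Prop :=
  Path Adj p a (a + k + 1 + r * y) ∧
    ∀ i, a ≤ i → i < a + r * y → (Lk G k p i ↔ ¬ (y : ℤ) ∣ (i - a))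

/-- the `y`-pattern does not fail after `r` turns -/
def NonFail (G : Type*) {V : Type*} [Group G] [MulAction G V] (Adj : V → V → Prop) (k y r : ℕ) :
    Prop := ∀ (p : ℤ → V) (a : ℤ), Pat G Adj k y p a r →
      Big (Fx G p a (a + k + 1 + r * y)) (SO G Adj k p (a + k + 1 + r * y))

namespace Fail

variable {k : ℕ} (H : Fail G n Adj k)

include H

theorem nonFail_zero (y : ℕ) : NonFail G Adj k y 0 := by
  intro p a hp
  have h1 : a + k + 1 + ((0 : ℕ) : ℤ) * y = a + k + 1 := by simp
  have h2 := hp.1
  rw [h1] at h2 ⊢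
  obtain ⟨_, _, _, _, h3⟩ := H.SO_spec p (a + k + 1) (by
    rw [show a + k + 1 - k - 1 = (a : ℤ) by ring]; exact h2)
  rw [show a + k + 1 - k - 1 = (a : ℤ) by ring] at h3
  exact h3

theorem pat_conj {y : ℕ} (hy : 0 < y) {r : ℕ} (hnf : ∀ r' < r, NonFail G Adj k y r')
    (p q : ℤ → V) (a b : ℤ) (hp : Pat G Adj k y p a r) (hq : Pat G Adj k y q b r) :
    ∃ g : G, ∀ i : ℤ, 0 ≤ i → i ≤ k + 1 + r * y → g • p (a + i) = q (b + i) := by
  have h := H.conj_of_status (r * y) p q a b (by push_cast; exact hp.1)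
    (by push_cast; exact hq.1) ?_ ?_
  · obtain ⟨g, hg⟩ := h
    exact ⟨g, fun i h1 h2 => hg i h1 (by push_cast; exact h2)⟩
  · intro i h1 h2
    push_cast at h2
    rw [hp.2 (a + i) (by omega) (by omega), hq.2 (b + i) (by omega) (by omega)]
    rw [show a + i - a = i by ring, show b + i - b = i by ring]
  · intro i h1 h2 h3
    push_cast at h2
    have hd : (y : ℤ) ∣ i := by
      by_contra hd
      apply h3
      rw [hq.2 (b + i) (by omega) (by omega), show b + i - b = i by ring]
      exact hd
    obtain ⟨c, rfl⟩ := hd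
    have hy' : (0 : ℤ) < y := by exact_mod_cast hy
    have hc0 : 0 ≤ c := by
      by_contra hc
      have : (y : ℤ) * c < 0 := mul_neg_of_pos_of_neg hy' (by omega)
      omega
    have hcr : c < r := by
      by_contra hc
      have : (y : ℤ) * r ≤ y * c := mul_le_mul_of_nonneg_left (by omega) hy'.le
      have e : (y : ℤ) * r = r * y := mul_comm _ _
      omega
    lift c to ℕ using hc0
    have hcr' : c < r := by exact_mod_cast hcr
    have h4 := hnf c hcr' q b ⟨hq.1.mono le_rfl (by
      have : (c : ℤ) * y ≤ r * y := mul_le_mul_of_nonneg_right (by omega) hy'.le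
      omega), fun i h5 h6 => hq.2 i h5 (by
      have : (c : ℤ) * y ≤ r * y := mul_le_mul_of_nonneg_right (by omega) hy'.le
      omega)⟩
    rw [mul_comm (y : ℤ) c]
    exact h4

/-- if one pattern with `r` turns fails, all do -/
theorem all_fail {y : ℕ} (hy : 0 < y) {r : ℕ} (hnf : ∀ r' < r, NonFail G Adj k y r')
    (hf : ¬ NonFail G Adj k y r) (p : ℤ → V) (a : ℤ) (hp : Pat G Adj k y p a r) :
    ¬ Big (Fx G p a (a + k + 1 + r * y)) (SO G Adj k p (a + k + 1 + r * y)) := by
  intro hb
  apply hf
  intro q b hq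
  obtain ⟨g, hg⟩ := H.pat_conj hy hnf p q a b hp hq
  have key : ∀ i, a ≤ i → i ≤ a + k + 1 + r * y → g • p i = q (i + (b - a)) := by
    intro i h1 h2
    have := hg (i - a) (by omega) (by omega)
    rw [show a + (i - a) = i by ring, show b + (i - a) = i + (b - a) by ring] at this
    exact this
  have e : b + k + 1 + r * y = (a + k + 1 + r * y) + (b - a) := by ring
  have hy' : (0 : ℤ) ≤ r * y := by positivity
  refine Big_conj g (A := Fx G p a (a + k + 1 + r * y))
    (S := SO G Adj k p (a + k + 1 + r * y)) ?_ ?_ hb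
  · intro x
    have := mem_Fx_conj g key x
    rw [show a + (b - a) = b by ring] at this
    rw [e]
    exact this
  · intro v
    rw [e]
    have e1 := mem_Fx_conj (G := G) (p := p) (q := q) (a := a + r * y) (b := a + k + 1 + r * y)
      (c := b - a) g (fun i h1 h2 => key i (by omega) h2)
    have e2 := H.mem_Out g (p (a + k + 1 + r * y)) (g⁻¹ • v)
    rw [smul_inv_smul, key _ (by omega) le_rfl] at e2
    constructor
    · rintro ⟨h1, x, hx, hxv⟩
      refine ⟨e2.1 h1, g⁻¹ * x * g, ?_, ?_⟩
      · rw [show a + k + 1 + (r : ℤ) * y - k - 1 = a + r * y by ring]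
        rw [show a + k + 1 + (r : ℤ) * y + (b - a) - k - 1 = a + r * y + (b - a) by ring] at hx
        exact (e1 x).1 hx
      · intro h
        rw [mul_smul, mul_smul, smul_inv_smul] at h
        exact hxv (MulAction.injective g⁻¹ h)
    · rintro ⟨h1, x, hx, hxv⟩
      refine ⟨e2.2 h1, g * x * g⁻¹, ?_, ?_⟩
      · rw [show a + k + 1 + (r : ℤ) * y + (b - a) - k - 1 = a + r * y + (b - a) by ring]
        rw [show a + k + 1 + (r : ℤ) * y - k - 1 = a + r * y by ring] at hx
        rw [e1]
        have : g⁻¹ * (g * x * g⁻¹) * g = x := by group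
        rw [this]
        exact hx
      · intro h
        rw [mul_smul, mul_smul] at h
        apply hxv
        have h5 := congrArg (fun w => g⁻¹ • w) h
        simpa [inv_smul_smul] using h5

theorem pat_tail {y : ℕ} {r : ℕ} {p : ℤ → V} {a : ℤ} (hp : Pat G Adj k y p a (r + 1)) :
    Pat G Adj k y p (a + y) r := by
  have e : a + y + k + 1 + (r : ℤ) * y = a + k + 1 + ((r + 1 : ℕ) : ℤ) * y := by
    push_cast; ring
  have hy' : (0 : ℤ) ≤ y := by positivity
  refine ⟨?_, ?_⟩
  · rw [e]
    exact hp.1.mono (by omega) le_rfl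
  · intro i h1 h2
    rw [hp.2 i (by omega) (by push_cast; linarith)]
    have : (y : ℤ) ∣ (i - (a + y)) ↔ (y : ℤ) ∣ (i - a) := by
      rw [show i - a = (i - (a + y)) + y by ring]
      exact (dvd_add_self_right).symm
    rw [this]

/-- along forced edges the window stabilizer does not change -/
theorem Fx_shift {p : ℤ → V} {a c b : ℤ} (hac : a ≤ c)
    (h : ∀ i, a ≤ i → i < c → Lk G k p i) (hb : c + k + 1 ≤ b) :
    Fx G p a b = Fx G p c b := by
  obtain ⟨d, rfl⟩ : ∃ d : ℕ, c = a + d := ⟨(c - a).toNat, by omega⟩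
  induction d generalizing a with
  | zero => simp
  | succ d ih =>
    have h1 : Fx G p (a + 1) b = Fx G p (a + 1 + d) b :=
      ih (a := a + 1) (by omega) (fun i h2 h3 => h i (by omega) (by push_cast; omega))
        (by push_cast at hb; omega)
    rw [show a + ((d + 1 : ℕ) : ℤ) = a + 1 + d by push_cast; ring, ← h1]
    apply le_antisymm (Fx_mono p (by omega) le_rfl)
    rw [Fx_left p (a := a) (by push_cast at hb; omega)]
    refine le_inf le_rfl ?_
    have h2 := h a le_rfl (by push_cast; omega)
    have h3 : Fx G p (a + 1) b ≤ Fx G p (a + 1) (a + k + 2) :=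
      Fx_mono p le_rfl (by push_cast at hb; omega)
    rw [← h2] at h3
    exact h3.trans (H.Fx_le_stab p le_rfl (by omega))

/-- statement (L) of the paper proof, and bigness -/
theorem L_lemma {y : ℕ} (hy : 0 < y) {r : ℕ} (hnf : ∀ r' < r + 1, NonFail G Adj k y r')
    (hf : ¬ NonFail G Adj k y (r + 1)) (p : ℤ → V) (a b : ℤ)
    (hp : Pat G Adj k y p a (r + 1)) (hb : b = a + k + 1 + (r + 1 : ℕ) * y) :
    Big (Fx G p (a + 1) b) (SO G Adj k p b) ∧
    (∀ g ∈ Fx G p (a + 1) b, (Fixes g (In Adj (p (a + 1))) ↔ Fixes g (Out Adj (p b)))) := by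
  classical
  have hy' : (1 : ℤ) ≤ y := by exact_mod_cast hy
  have hry : (0 : ℤ) ≤ r * y := by positivity
  have hb' : b = a + k + 1 + r * y + y := by rw [hb]; push_cast; ring
  have hpath : Path Adj p a b := by rw [hb]; exact hp.1
  have hpb : Path Adj p (b - k - 1) b := hpath.mono (by omega) le_rfl
  -- `Fx (a+1) b = Fx (a+y) b`
  have hshift : Fx G p (a + 1) b = Fx G p (a + y) b := by
    apply H.Fx_shift (by omega) _ (by omega)
    intro i h1 h2
    rw [hp.2 i (by omega) (by push_cast; linarith)]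
    intro hd
    have := Int.le_of_dvd (by omega) hd
    omega
  have htail := H.pat_tail hp
  have hbigA : Big (Fx G p (a + 1) b) (SO G Adj k p b) := by
    rw [hshift]
    have := hnf r (by omega) p (a + y) htail
    rw [show a + y + k + 1 + (r : ℤ) * y = b by rw [hb']; ring] at this
    exact this
  set A := Fx G p (a + 1) b with hA
  have hAsub : A ≤ Fx G p (b - k - 1) b := Fx_mono p (by omega) le_rfl
  have hinvS : Inv A (SO G Adj k p b) := H.SO_inv p b hpb hAsub
  have hinvI : Inv A (In Adj (p (a + 1))) := H.inv_In (H.Fx_le_stab p le_rfl (by omega))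
  -- the backward forced vertex
  obtain ⟨v0, hv0, hv0f, hv0u⟩ := H.forced_left p a (hpath.mono (by omega) (by omega))
  have hAf : A ≤ Fx G p (a + 1) (a + k + 2) := Fx_mono p le_rfl (by omega)
  -- the set `In \ {v0}`
  have hinv' : Inv A (In Adj (p (a + 1)) \ {v0}) := by
    intro g hg v hv
    refine ⟨hinvI g hg v hv.1, ?_⟩
    intro h
    rw [Set.mem_singleton_iff] at h
    apply hv.2
    rw [Set.mem_singleton_iff]
    have h3 := hv0f g (hAf hg)
    rw [← h3] at h
    exact MulAction.injective g h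
  have hfin' : (In Adj (p (a + 1)) \ {v0}).Finite := (H.fin_In _).subset Set.diff_subset
  have hcard' : (In Adj (p (a + 1)) \ {v0}).ncard = n - 1 := by
    rw [Set.ncard_sdiff_singleton_of_mem hv0, H.inn]
  have hcardS : (SO G Adj k p b).ncard = n - 1 := H.SO_ncard p b hpb
  have hn := H.hn
  -- for every `v ≠ v0` the stabilizer of `v` is not big
  have hnot : ∀ v ∈ In Adj (p (a + 1)) \ {v0},
      ¬ Big (A ⊓ stabilizer G v) (SO G Adj k p b) := by
    intro v hv
    set q := Function.update p a v with hq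
    have hqe : ∀ i, a + 1 ≤ i → p i = q i := by
      intro i h1
      rw [hq, Function.update_of_ne (by omega)]
    have hqa : q a = v := by rw [hq, Function.update_self]
    have hpq : Path Adj q a b := by
      intro i h1 h2
      rcases eq_or_lt_of_le h1 with rfl | h3
      · rw [hqa, ← hqe _ le_rfl]
        exact hv.1
      · rw [← hqe i (by omega), ← hqe (i + 1) (by omega)]
        exact hpath i h1 h2
    have hpat : Pat G Adj k y q a (r + 1) := by
      refine ⟨by rw [← hb]; exact hpq, ?_⟩
      intro i h1 h2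
      rcases eq_or_lt_of_le h1 with rfl | h3
      · constructor
        · intro hL
          exfalso
          rw [H.Lk_iff_left q a (hpq.mono le_rfl (by omega))] at hL
          rw [hqa, ← Fx_congr (p := p) (q := q) (fun i h1 _ => hqe i h1)] at hL
          exact hv.2 (hv0u v hv.1 hL)
        · intro h
          exfalso
          apply h
          simp
      · rw [← Lk_congr (p := p) (q := q) (fun i h1 _ => hqe i (by omega))]
        exact hp.2 i h1 h2
    have h1 := H.all_fail hy hnf hf q a hpat
    rw [← hb] at h1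
    rw [Fx_left q (by omega), hqa, ← Fx_congr (p := p) (q := q) (fun i h1 _ => hqe i h1),
      ← SO_congr (p := p) (q := q) (fun i h1 _ => hqe i (by omega))] at h1
    exact h1
  have hidx : ∀ v ∈ In Adj (p (a + 1)) \ {v0},
      (A ⊓ stabilizer G v).relIndex A ≠ 0 ∧
      (A ⊓ stabilizer G v).relIndex A ≤ (SO G Adj k p b).ncard := by
    intro v hv
    have := relIndex_stab hfin' hinv' hv
    rw [hcard'] at this
    rw [hcardS]
    exact this
  have hS5 : 5 ≤ (SO G Adj k p b).ncard := H.SO_five p b hpb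
  refine ⟨hbigA, ?_⟩
  intro g hg
  rw [← H.fixes_SO_iff p b hpb (hAsub hg)]
  constructor
  · -- the kernel on `In` is normal and not big
    intro hfix
    -- choose some `v ≠ v0`
    have hne : (In Adj (p (a + 1)) \ {v0}).Nonempty := by
      apply Set.nonempty_of_ncard_ne_zero
      rw [hcard']
      omega
    obtain ⟨v, hv⟩ := hne
    let K : Subgroup G :=
      { carrier := {x | x ∈ A ∧ Fixes x (In Adj (p (a + 1)))}
        mul_mem' := fun h1 h2 => ⟨A.mul_mem h1.1 h2.1, Fixes_mul h1.2 h2.2⟩
        one_mem' := ⟨A.one_mem, fun s _ => one_smul _ s⟩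
        inv_mem' := fun h1 => ⟨A.inv_mem h1.1, Fixes_inv h1.2⟩ }
    have hKA : K ≤ A := fun x hx => hx.1
    have hKn : ∀ x ∈ A, ∀ z ∈ K, x * z * x⁻¹ ∈ K := by
      intro x hx z hz
      refine ⟨A.mul_mem (A.mul_mem hx hz.1) (A.inv_mem hx), ?_⟩
      intro s hs
      rw [mul_smul, mul_smul, hz.2 (x⁻¹ • s) (hinvI _ (A.inv_mem hx) s hs), smul_inv_smul]
    rcases normal_dichotomy hS5 hinvS hbigA hKA hKn with h | h
    · exact h g ⟨hg, hfix⟩
    · exfalso
      apply hnot v hv
      refine Big_mono ?_ h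
      intro x hx
      exact ⟨hx.1, hx.2 v hv.1⟩
  · intro hfix v hv
    by_cases hvv : v = v0
    · rw [hvv]
      exact hv0f g (hAf hg)
    · have hv' : v ∈ In Adj (p (a + 1)) \ {v0} := ⟨hv, hvv⟩
      have := ker_le hS5 hinvS hbigA inf_le_left (hidx v hv').1 (hidx v hv').2 (hnot v hv')
        g hg hfix
      exact this.2

end Fail

end Pool.Agent.Lib_helper84.BT
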