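import Pool.Agent.Lib_helper84.BT.Fail

set_option autoImplicit false

/-! Side sets, invariance of the status of an edge, transitivity on paths of equal status. -/

namespace Pool.Agent.Lib_helper84.BT

open MulAction

variable {G V : Type*} [Group G] [MulAction G V] {n : ℕ} {Adj : V → V → Prop}

/-- the out-neighbours of `p b` which are not forced by the window `[b-k-1, b]` -/
def SO (G : Type*) {V : Type*} [Group G] [MulAction G V] (Adj : V → V → Prop) (k : ℕ)
    (p : ℤ → V) (b : ℤ) : Set V :=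
  {t | t ∈ Out Adj (p b) ∧ ∃ g ∈ Fx G p (b - k - 1) b, g • t ≠ t}

theorem SO_congr {k : ℕ} {p q : ℤ → V} {b : ℤ} (h : ∀ i, b - k - 1 ≤ i → i ≤ b → p i = q i) :
    SO G Adj k p b = SO G Adj k q b := by
  unfold SO
  rw [Fx_congr h, h b (by omega) le_rfl]

theorem Lk_congr {k : ℕ} {p q : ℤ → V} {j : ℤ} (h : ∀ i, j ≤ i → i ≤ j + k + 2 → p i = q i) :
    Lk G k p j ↔ Lk G k q j := by
  unfold Lk
  rw [Fx_congr (G := G) (a := j) (b := j + k + 1) (fun i h1 h2 => h i h1 (by omega)),
    Fx_congr (G := G) (a := j + 1) (b := j + k + 2) (fun i h1 h2 => h i (by omega) h2)]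

theorem Lk_conj {k : ℕ} {p q : ℤ → V} {j c : ℤ} (g : G)
    (h : ∀ i, j ≤ i → i ≤ j + k + 2 → g • p i = q (i + c)) :
    Lk G k p j ↔ Lk G k q (j + c) := by
  unfold Lk
  have h1 := mem_Fx_conj (p := p) (q := q) (a := j) (b := j + k + 1) g
    (fun i h1 h2 => h i h1 (by omega))
  have h2 := mem_Fx_conj (p := p) (q := q) (a := j + 1) (b := j + k + 2) g
    (fun i h1 h2 => h i (by omega) h2)
  have e1 : j + k + 1 + c = j + c + k + 1 := by ring
  have e2 : j + k + 2 + c = j + c + k + 2 := by ring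
  have e3 : j + 1 + c = j + c + 1 := by ring
  rw [e1] at h1
  rw [e2, e3] at h2
  constructor
  · intro e
    ext x
    rw [h1, h2, e]
  · intro e
    ext x
    have h3 := h1 (g * x * g⁻¹)
    have h4 := h2 (g * x * g⁻¹)
    have e5 : g⁻¹ * (g * x * g⁻¹) * g = x := by group
    rw [e5] at h3 h4
    rw [← h3, ← h4, e]

namespace Fail

variable {k : ℕ} (H : Fail G n Adj k)

include H

theorem SO_spec (p : ℤ → V) (b : ℤ) (hp : Path Adj p (b - k - 1) b) :
    ∃ t ∈ Out Adj (p b), SO G Adj k p b = Out Adj (p b) \ {t} ∧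
      (∀ g ∈ Fx G p (b - k - 1) b, g • t = t) ∧ Big (Fx G p (b - k - 1) b) (SO G Adj k p b) := by
  have h1 := H.forced_right p (b - k - 1) (by
    rw [show b - k - 1 + (k : ℤ) + 1 = b by ring]; exact hp)
  rw [show b - k - 1 + (k : ℤ) + 1 = b by ring] at h1
  obtain ⟨t, ht, h2, h3, h4, _⟩ := h1
  have e : SO G Adj k p b = Out Adj (p b) \ {t} := by
    ext s
    constructor
    · rintro ⟨hs, g, hg, hgs⟩
      refine ⟨hs, ?_⟩
      intro h
      rw [Set.mem_singleton_iff] at h
      subst h
      exact hgs (h2 g hg)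
    · rintro ⟨hs, hst⟩
      refine ⟨hs, ?_⟩
      by_contra hcon
      push_neg at hcon
      exact hst (h3 s hs hcon)
  exact ⟨t, ht, e, h2, by rw [e]; exact h4⟩

theorem SO_ncard (p : ℤ → V) (b : ℤ) (hp : Path Adj p (b - k - 1) b) :
    (SO G Adj k p b).ncard = n - 1 := by
  obtain ⟨t, ht, e, _, _⟩ := H.SO_spec p b hp
  rw [e, Set.ncard_diff_singleton_of_mem ht, H.out]

theorem SO_fin (p : ℤ → V) (b : ℤ) : (SO G Adj k p b).Finite :=
  (H.fin_Out (p b)).subset (fun _ h => h.1)

theorem SO_five (p : ℤ → V) (b : ℤ) (hp : Path Adj p (b - k - 1) b) :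
    5 ≤ (SO G Adj k p b).ncard := by
  rw [H.SO_ncard p b hp]
  have := H.hn
  omega

theorem SO_inv (p : ℤ → V) (b : ℤ) (hp : Path Adj p (b - k - 1) b) {A : Subgroup G}
    (hA : A ≤ Fx G p (b - k - 1) b) : Inv A (SO G Adj k p b) := by
  obtain ⟨t, ht, e, h2, _⟩ := H.SO_spec p b hp
  intro a ha s hs
  rw [e] at hs ⊢
  refine ⟨H.inv_Out (H.Fx_le_stab p (by omega) le_rfl) a (hA ha) s hs.1, ?_⟩
  intro h
  rw [Set.mem_singleton_iff] at h
  apply hs.2
  rw [Set.mem_singleton_iff]
  have h3 := h2 a (hA ha)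
  rw [← h3] at h
  exact MulAction.injective a h

theorem fixes_SO_iff (p : ℤ → V) (b : ℤ) (hp : Path Adj p (b - k - 1) b) {g : G}
    (hg : g ∈ Fx G p (b - k - 1) b) :
    Fixes g (SO G Adj k p b) ↔ Fixes g (Out Adj (p b)) := by
  obtain ⟨t, ht, e, h2, _⟩ := H.SO_spec p b hp
  constructor
  · intro h s hs
    by_cases hst : s = t
    · rw [hst]
      exact h2 g hg
    · exact h s (by rw [e]; exact ⟨hs, hst⟩)
  · intro h
    exact Fixes_mono (fun _ hx => hx.1) h

theorem mem_SO_iff (p : ℤ → V) (b : ℤ) (hp : Path Adj p (b - k - 1) (b + 1)) :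
    p (b + 1) ∈ SO G Adj k p b ↔ ¬ Lk G k p (b - k - 1) := by
  have h1 := H.Lk_iff_right p (b - k - 1) (by
    rw [show b - k - 1 + (k : ℤ) + 2 = b + 1 by ring]; exact hp)
  rw [show b - k - 1 + (k : ℤ) + 2 = b + 1 by ring,
    show b - k - 1 + (k : ℤ) + 1 = b by ring] at h1
  rw [h1]
  constructor
  · rintro ⟨_, g, hg, h⟩ h'
    exact h (h' g hg)
  · intro h
    push_neg at h
    exact ⟨hp b (by omega) (by omega), h⟩

theorem conj_of_status (l : ℕ) : ∀ (p q : ℤ → V) (a b : ℤ),
    Path Adj p a (a + k + 1 + l) → Path Adj q b (b + k + 1 + l) →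
    (∀ i : ℤ, 0 ≤ i → i < l → (Lk G k p (a + i) ↔ Lk G k q (b + i))) →
    (∀ i : ℤ, 0 ≤ i → i < l → ¬ Lk G k q (b + i) →
      Big (Fx G q b (b + k + 1 + i)) (SO G Adj k q (b + k + 1 + i))) →
    ∃ g : G, ∀ i : ℤ, 0 ≤ i → i ≤ k + 1 + l → g • p (a + i) = q (b + i) := by
  induction l with
  | zero =>
    intro p q a b hp hq _ _
    obtain ⟨g, hg⟩ := H.PT_le (k + 1) le_rfl p q a b
      (by simpa [add_assoc] using hp) (by simpa [add_assoc] using hq)
    exact ⟨g, fun i h1 h2 => hg i h1 (by push_cast at h2 ⊢; omega)⟩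
  | succ l ih =>
    intro p q a b hp hq hs hb
    obtain ⟨g, hg⟩ := ih p q a b (hp.mono le_rfl (by push_cast; omega))
      (hq.mono le_rfl (by push_cast; omega))
      (fun i h1 h2 => hs i h1 (by push_cast; omega))
      (fun i h1 h2 => hb i h1 (by push_cast; omega))
    -- the next vertex
    set q' : ℤ → V := fun i => g • p (a - b + i) with hq'
    have hqq : ∀ i, b ≤ i → i ≤ b + k + 1 + l → q' i = q i := by
      intro i h1 h2
      have := hg (i - b) (by omega) (by omega)
      rw [show b + (i - b) = i by ring] at this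
      rw [hq', ← this]
      show g • p (a - b + i) = g • p (a + (i - b))
      congr 2
      ring
    have hpath' : Path Adj q' b (b + k + 1 + (l + 1 : ℕ)) := by
      intro i h1 h2
      have := hp (a - b + i) (by omega) (by omega)
      have h3 := H.adj g _ _ this
      show Adj (g • p (a - b + i)) (g • p (a - b + (i + 1)))
      rw [show a - b + (i + 1) = a - b + i + 1 by ring]
      exact h3
    have e1 : b + (k : ℤ) + 1 + l - k - 1 = b + l := by ring
    have hLk : Lk G k q' (b + l) ↔ Lk G k q (b + l) := by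
      rw [← hs l (by omega) (by push_cast; omega)]
      have h3 := Lk_conj (G := G) (k := k) (p := p) (q := q') (j := a + l) (c := b - a) g (by
        intro i _ _
        show g • p i = g • p (a - b + (i + (b - a)))
        congr 2
        ring)
      rw [h3]
      rw [show a + (l : ℤ) + (b - a) = b + l by ring]
    have hO : Out Adj (q' (b + k + 1 + l)) = Out Adj (q (b + k + 1 + l)) := by
      rw [hqq _ (by omega) (by omega)]
    have hFx : Fx G q' (b + l) (b + l + k + 1) = Fx G q (b + l) (b + l + k + 1) :=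
      Fx_congr (fun i h1 h2 => hqq i (by omega) (by omega))
    have hm : q' (b + k + 1 + l + 1) ∈ Out Adj (q (b + k + 1 + l)) := by
      rw [← hO]
      exact hpath' _ (by omega) (by push_cast; omega)
    have hm2 : q (b + k + 1 + l + 1) ∈ Out Adj (q (b + k + 1 + l)) :=
      hq _ (by omega) (by push_cast; omega)
    have hfinal : ∃ x ∈ Fx G q b (b + k + 1 + l),
        x • q' (b + k + 1 + l + 1) = q (b + k + 1 + l + 1) := by
      by_cases hL : Lk G k q (b + l)
      · refine ⟨1, Subgroup.one_mem _, ?_⟩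
        rw [one_smul]
        have h1 := (H.Lk_iff_right q (b + l) (hq.mono (by omega) (by push_cast; omega))).1 hL
        have h2 := (H.Lk_iff_right q' (b + l) (hpath'.mono (by omega) (by push_cast; omega))).1
          (hLk.2 hL)
        rw [hFx] at h2
        obtain ⟨t, ht, _, h3, _, _⟩ := H.forced_right q (b + l)
          (hq.mono (by omega) (by push_cast; omega))
        rw [show b + (l : ℤ) + k + 1 = b + k + 1 + l by ring] at *
        rw [show b + (l : ℤ) + k + 2 = b + k + 1 + l + 1 by ring] at h1 h2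
        rw [h3 _ hm h2, h3 _ hm2 h1]
      · have h1 : q (b + k + 1 + l + 1) ∈ SO G Adj k q (b + k + 1 + l) := by
          rw [H.mem_SO_iff q (b + k + 1 + l) (hq.mono (by omega) (by push_cast; omega)), e1]
          exact hL
        have h2 : q' (b + k + 1 + l + 1) ∈ SO G Adj k q' (b + k + 1 + l) := by
          rw [H.mem_SO_iff q' (b + k + 1 + l) (hpath'.mono (by omega) (by push_cast; omega)), e1,
            hLk]
          exact hL
        rw [SO_congr (G := G) (Adj := Adj) (k := k) (p := q') (q := q) (b := b + k + 1 + l)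
          (fun i h3 h4 => hqq i (by omega) (by omega))] at h2
        have h3 := hb l (by omega) (by push_cast; omega) hL
        have h4 := H.SO_five q (b + k + 1 + l) (hq.mono (by omega) (by push_cast; omega))
        obtain ⟨x, hx, e⟩ := h3.tr (by omega) h2 h1
        exact ⟨x, hx, e⟩
    obtain ⟨x, hx, e⟩ := hfinal
    refine ⟨x * g, fun i h1 h2 => ?_⟩
    rw [mul_smul]
    rcases lt_or_ge ((k : ℤ) + 1 + l) i with hlt | hle
    · obtain rfl : i = k + 1 + l + 1 := by push_cast at h2; omega
      have h3 : g • p (a + ((k : ℤ) + 1 + l + 1)) = q' (b + k + 1 + l + 1) := by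
        show _ = g • p (a - b + (b + k + 1 + l + 1))
        congr 2
        ring
      rw [h3, e]
      congr 1
      ring
    · rw [hg i h1 (by omega)]
      exact hx (b + i) (by omega) (by omega)

end Fail

end Pool.Agent.Lib_helper84.BT
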