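import Pool.Agent.Lib_helper84.BT.Graph
import Pool.Agent.Lib_helper37.BT_C
import Pool.Agent.Lib_helper96.BT_D

set_option autoImplicit false

/-! Transducers: the criterion. -/

namespace Pool.Agent.Lib_helper84.BT

open MulAction

section free

variable {Q : Type*}

/-- the element of the free group given by a word of states -/
def pr (w : List Q) : FreeGroup Q := (w.map FreeGroup.of).prod

theorem pr_nil : pr ([] : List Q) = 1 := rfl

theorem pr_cons (q : Q) (w : List Q) : pr (q :: w) = FreeGroup.of q * pr w := by simp [pr]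

theorem pr_append (v w : List Q) : pr (v ++ w) = pr v * pr w := by simp [pr]

theorem pr_flatten (i : ℕ) (v : List Q) : pr (List.replicate i v).flatten = pr v ^ i := by
  induction i with
  | zero => simp [pr]
  | succ i ih => rw [List.replicate_succ, List.flatten_cons, pr_append, ih, pow_succ']

theorem pr_eq_mk (w : List Q) : pr w = FreeGroup.mk (w.map (fun q => (q, true))) := by
  induction w with
  | nil => rfl
  | cons q w ih =>
    rw [pr_cons, ih]
    rfl

theorem pr_injective [DecidableEq Q] : Function.Injective (pr : List Q → FreeGroup Q) := by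
  intro v w h
  have key : ∀ w : List Q, (pr w).toWord = w.map (fun q => (q, true)) := by
    intro w
    rw [pr_eq_mk, FreeGroup.toWord_mk]
    apply FreeGroup.IsReduced.reduce_eq
    rw [FreeGroup.IsReduced, List.isChain_iff_getElem]
    intro i hi
    simp
  have h1 := congrArg FreeGroup.toWord h
  rw [key, key] at h1
  exact List.map_injective_iff.2 (fun a b hab => (Prod.ext_iff.1 hab).1) h1

end free

section trans

variable {Q X : Type*}

theorem dacts_append (δ : Q → X → Q) (ρ : Q → X → X) (u u' : List X) (w : List Q) :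
    dacts δ ρ (u ++ u') w = dacts δ ρ u' (dacts δ ρ u w) := by
  induction u generalizing w with
  | nil => rfl
  | cons x u ih => exact ih _

theorem closure_dacts [Fintype Q] [DecidableEq Q] (δ : Q → X → Q) (ρ : Q → X → X)
    (σ : Equiv.Perm Q)
    (hσ : σ ∈ Subgroup.closure {σ : Equiv.Perm Q | ∃ x, ∀ q, σ q = δ q x}) :
    ∃ u : List X, ∀ q, dacts δ ρ u [q] = [σ q] := by
  have hmul : ∀ σ τ : Equiv.Perm Q, (∃ u : List X, ∀ q, dacts δ ρ u [q] = [σ q]) →
      (∃ u : List X, ∀ q, dacts δ ρ u [q] = [τ q]) →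
      ∃ u : List X, ∀ q, dacts δ ρ u [q] = [(σ * τ) q] := by
    rintro σ τ ⟨u, hu⟩ ⟨u', hu'⟩
    exact ⟨u' ++ u, fun q => by rw [dacts_append, hu', hu]; rfl⟩
  have hpow : ∀ (σ : Equiv.Perm Q), (∃ u : List X, ∀ q, dacts δ ρ u [q] = [σ q]) →
      ∀ j : ℕ, ∃ u : List X, ∀ q, dacts δ ρ u [q] = [(σ ^ j) q] := by
    intro σ hσ j
    induction j with
    | zero => exact ⟨[], fun q => rfl⟩
    | succ j ih =>
      rw [pow_succ]
      exact hmul _ _ ih hσ
  induction hσ using Subgroup.closure_induction with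
  | mem σ h =>
    obtain ⟨x, hx⟩ := h
    exact ⟨[x], fun q => by rw [hx]; rfl⟩
  | one => exact ⟨[], fun q => rfl⟩
  | mul σ τ _ _ h1 h2 => exact hmul σ τ h1 h2
  | inv σ _ h =>
    have h1 : σ⁻¹ = σ ^ (orderOf σ - 1) := by
      rw [inv_eq_iff_mul_eq_one, ← pow_succ', Nat.sub_add_cancel (orderOf_pos σ),
        pow_orderOf_eq_one]
    rw [h1]
    exact hpow σ h _

theorem three_cycle_mem [Fintype Q] [DecidableEq Q] {q1 q2 q3 : Q} (h12 : q1 ≠ q2)
    (h23 : q2 ≠ q3) : Equiv.swap q1 q2 * Equiv.swap q2 q3 ∈ alternatingGroup Q := by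
  rw [Equiv.Perm.mem_alternatingGroup, Equiv.Perm.sign_mul, Equiv.Perm.sign_swap h12,
    Equiv.Perm.sign_swap h23]
  rfl

theorem dual_finite_of_periodic [Fintype Q] [Fintype X] [DecidableEq Q] [DecidableEq X]
    (δ : Q → X → Q) (ρ : Q → X → X) (hn : 8 ≤ Fintype.card Q)
    (hρ : ∀ q, Function.Bijective (ρ q)) (hδ : ∀ x, Function.Bijective (fun q => δ q x))
    (hbi : Function.Bijective (fun a : Q × X => (δ a.1 a.2, ρ a.1 a.2)))
    (hF : alternatingGroup Q ≤ Subgroup.closure {σ : Equiv.Perm Q | ∃ x, ∀ q, σ q = δ q x})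
    (f : Q → Equiv.Perm (List X))
    (hf : ∀ q x w, f q (x :: w) = ρ q x :: f (δ q x) w)
    (hper : ∀ v : List Q, IsOfFinOrder (wf f v)) :
    (Set.range (fun u : List X => dacts δ ρ u)).Finite := by
  classical
  obtain ⟨γ, Γ, hγΓ, hLΓ, hγ1, hγ, hΓadj, hΓ1⟩ := tree_model δ ρ hρ hδ hbi
  let Adj : FreeGroup Q → FreeGroup Q → Prop := fun v w => ∃ q, w = v * FreeGroup.of q
  have hAdj : ∀ (g : Γ) (v w : FreeGroup Q), Adj v w → Adj (g • v) (g • w) := by
    rintro g v _ ⟨q, rfl⟩
    exact hΓadj g g.2 v q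
  have hout : ∀ v, (Out Adj v).ncard = Fintype.card Q := by
    intro v
    have e : Out Adj v = (fun q => v * FreeGroup.of q) '' Set.univ := by
      ext w
      constructor
      · rintro ⟨q, rfl⟩
        exact ⟨q, trivial, rfl⟩
      · rintro ⟨q, _, rfl⟩
        exact ⟨q, rfl⟩
    rw [e, Set.ncard_image_of_injective _ (fun a b h => FreeGroup.of_injective
      (mul_left_cancel h)), Set.ncard_univ, Nat.card_eq_fintype_card]
  have hin : ∀ v, (In Adj v).ncard = Fintype.card Q := by
    intro v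
    have e : In Adj v = (fun q => v * (FreeGroup.of q)⁻¹) '' Set.univ := by
      ext w
      constructor
      · rintro ⟨q, hq⟩
        exact ⟨q, trivial, by rw [hq]; simp⟩
      · rintro ⟨q, _, rfl⟩
        exact ⟨q, by simp⟩
    rw [e, Set.ncard_image_of_injective _ (fun a b h => FreeGroup.of_injective
      (inv_injective (mul_left_cancel h))), Set.ncard_univ, Nat.card_eq_fintype_card]
  let L : FreeGroup Q →* Γ :=
    { toFun := fun w => ⟨Equiv.mulLeft w, hLΓ w⟩
      map_one' := by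
        apply Subtype.ext
        apply Equiv.ext
        intro v
        exact one_mul v
      map_mul' := by
        intro a b
        apply Subtype.ext
        apply Equiv.ext
        intro v
        exact mul_assoc a b v }
  have hL : ∀ w v, L w • v = w * v := fun w v => rfl
  have hLi : ∀ w v, (L w)⁻¹ • v = w⁻¹ * v := by
    intro w v
    rw [inv_smul_eq_iff, hL, mul_inv_cancel_left]
  have hT : ∀ v w : FreeGroup Q, ∃ g ∈ L.range, g • v = w := by
    intro v w
    exact ⟨L (w * v⁻¹), ⟨_, rfl⟩, by rw [hL]; simp⟩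
  -- the local action
  have hFl : ∀ σ ∈ Subgroup.closure {σ : Equiv.Perm Q | ∃ x, ∀ q, σ q = δ q x},
      ∃ a : Γ, a • (1 : FreeGroup Q) = 1 ∧ ∀ q, a • (FreeGroup.of q) = FreeGroup.of (σ q) := by
    intro σ hσ
    induction hσ using Subgroup.closure_induction with
    | mem σ h =>
      obtain ⟨x, hx⟩ := h
      refine ⟨⟨γ x, hγΓ x⟩, hγ1 x, ?_⟩
      intro q
      have h1 := hγ x q 1
      rw [mul_one, hγ1, mul_one, ← hx q] at h1
      exact h1
    | one => exact ⟨1, one_smul _ _, fun q => one_smul _ _⟩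
    | mul σ τ _ _ h1 h2 =>
      obtain ⟨a, ha1, ha⟩ := h1
      obtain ⟨b, hb1, hb⟩ := h2
      exact ⟨a * b, by rw [mul_smul, hb1, ha1], fun q => by rw [mul_smul, hb, ha]; rfl⟩
    | inv σ _ h =>
      obtain ⟨a, ha1, ha⟩ := h
      refine ⟨a⁻¹, by rw [inv_smul_eq_iff, ha1], ?_⟩
      intro q
      rw [inv_smul_eq_iff, ha]
      simp
  have hbig1 : Big (stabilizer Γ (1 : FreeGroup Q)) (Out Adj 1) := by
    rintro x ⟨q1, rfl⟩ y ⟨q2, rfl⟩ z ⟨q3, rfl⟩ hxy hyz hxz
    have h12 : q1 ≠ q2 := fun h => hxy (by rw [h])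
    have h23 : q2 ≠ q3 := fun h => hyz (by rw [h])
    have h13 : q1 ≠ q3 := fun h => hxz (by rw [h])
    obtain ⟨a, ha1, ha⟩ := hFl _ (hF (three_cycle_mem h12 h23))
    refine ⟨a, ha1, ?_, ?_, ?_, ?_⟩
    · rw [one_mul, one_mul, ha, Equiv.Perm.mul_apply, Equiv.swap_apply_of_ne_of_ne h12 h13,
        Equiv.swap_apply_left]
    · rw [one_mul, one_mul, ha, Equiv.Perm.mul_apply, Equiv.swap_apply_left,
        Equiv.swap_apply_of_ne_of_ne h13.symm h23.symm]
    · rw [one_mul, one_mul, ha, Equiv.Perm.mul_apply, Equiv.swap_apply_right,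
        Equiv.swap_apply_right]
    · rintro _ ⟨q, rfl⟩ h1 h2 h3
      have g1 : q ≠ q1 := fun h => h1 (by rw [h])
      have g2 : q ≠ q2 := fun h => h2 (by rw [h])
      have g3 : q ≠ q3 := fun h => h3 (by rw [h])
      rw [one_mul, ha, Equiv.Perm.mul_apply, Equiv.swap_apply_of_ne_of_ne g2 g3,
        Equiv.swap_apply_of_ne_of_ne g1 g2]
  have hbig : ∀ v, Big (stabilizer Γ v) (Out Adj v) := by
    intro v
    refine Big_conj (L v) (A := stabilizer Γ (1 : FreeGroup Q)) (S := Out Adj 1) ?_ ?_ hbig1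
    · intro x
      rw [mem_stabilizer_iff, mem_stabilizer_iff, mul_smul, mul_smul, hL, mul_one,
        inv_smul_eq_iff, hL, mul_one]
    · intro w
      rw [hLi]
      constructor
      · rintro ⟨q, rfl⟩
        exact ⟨q, by simp⟩
      · rintro ⟨q, hq⟩
        exact ⟨q, by rw [one_mul] at hq; rw [← hq]; simp⟩
  have HG : Gr Γ (Fintype.card Q) Adj := ⟨hAdj, hout, hin, fun v w => by
    obtain ⟨g, _, h⟩ := hT v w
    exact ⟨g, h⟩, hbig, hn⟩
  -- words along paths
  have hword : ∀ (p : ℤ → FreeGroup Q), (∀ i, 0 ≤ i → Adj (p i) (p (i + 1))) →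
      ∀ i d : ℕ, ∃ u : List Q, u.length = d ∧ p (i + d) = p i * pr u := by
    intro p hp i d
    induction d with
    | zero => exact ⟨[], rfl, by simp [pr_nil]⟩
    | succ d ih =>
      obtain ⟨u, hu, hpu⟩ := ih
      obtain ⟨q, hq⟩ := hp (i + d) (by omega)
      refine ⟨u ++ [q], by simp [hu], ?_⟩
      rw [show (i : ℤ) + ((d + 1 : ℕ) : ℤ) = i + d + 1 by push_cast; ring, hq, hpu, pr_append,
        pr_cons, pr_nil, mul_one, mul_assoc]
  have hprefix : ∀ (p : ℤ → FreeGroup Q), (∀ i, 0 ≤ i → Adj (p i) (p (i + 1))) →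
      ∀ (g : Γ) (i d : ℕ), g • p 0 = p 0 → g • p (i + d) = p (i + d) → g • p i = p i := by
    intro p hp g i d h0 hd
    obtain ⟨w, hw, e1⟩ := hword p hp 0 i
    obtain ⟨u, hu, e2⟩ := hword p hp i d
    have hp' : ∀ i, 0 ≤ i → Adj ((fun i => g • p i) i) ((fun i => g • p i) (i + 1)) :=
      fun i hi => hAdj g _ _ (hp i hi)
    obtain ⟨w', hw', e3⟩ := hword (fun i => g • p i) hp' 0 i
    obtain ⟨u', hu', e4⟩ := hword (fun i => g • p i) hp' i d
    simp only [Nat.cast_zero, zero_add] at e1 e3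
    rw [h0] at e3
    simp only [hd] at e4
    rw [e2, e3, mul_assoc, e1, mul_assoc] at e4
    have h1 := mul_left_cancel e4
    rw [← pr_append, ← pr_append] at h1
    have h2 := (List.append_inj (pr_injective h1) (by rw [hw, hw'])).1
    rw [e3, e1, h2]
  -- `γ x` on words
  have hγpr : ∀ (w : List Q) (x : X), γ x (pr w) = pr (dact δ ρ x w) := by
    intro w
    induction w with
    | nil => intro x; exact hγ1 x
    | cons q w ih =>
      intro x
      rw [pr_cons, hγ, ih]
      exact (pr_cons _ _).symm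
  -- elements of `⟨γ x⟩` on the powers of trivial words
  have hP : ∀ g ∈ Subgroup.closure (Set.range γ), ∀ v : List Q, wf f v = 1 →
      ∃ v' : List Q, v'.length = v.length ∧ wf f v' = 1 ∧ ∀ i : ℕ, g (pr v ^ i) = pr v' ^ i := by
    intro g hg
    induction hg using Subgroup.closure_induction with
    | mem g h =>
      obtain ⟨x, rfl⟩ := h
      intro v hv
      refine ⟨dact δ ρ x v, D_dact_length δ ρ v x, (D_trivial δ ρ f hf v hv x).2, ?_⟩
      intro i
      rw [← pr_flatten, hγpr, D_dact_pow δ ρ f hf v hv x i, pr_flatten]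
    | one => intro v hv; exact ⟨v, rfl, hv, fun i => rfl⟩
    | mul g h _ _ h1 h2 =>
      intro v hv
      obtain ⟨v', hl, hv', e⟩ := h2 v hv
      obtain ⟨v'', hl', hv'', e'⟩ := h1 v' hv'
      exact ⟨v'', hl'.trans hl, hv'', fun i => by rw [Equiv.Perm.mul_apply, e, e']⟩
    | inv g _ h =>
      intro v hv
      let NL : Set (List Q) := {u | u.length = v.length ∧ wf f u = 1}
      have hNL : NL.Finite := (List.finite_length_eq Q v.length).subset (fun u hu => hu.1)
      have h' : ∀ u : List Q, ∃ u', wf f u = 1 → u'.length = u.length ∧ wf f u' = 1 ∧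
          ∀ i : ℕ, g (pr u ^ i) = pr u' ^ i := by
        intro u
        by_cases hu : wf f u = 1
        · obtain ⟨u', h1⟩ := h u hu
          exact ⟨u', fun _ => h1⟩
        · exact ⟨u, fun h => absurd h hu⟩
      choose φ hφ using h'
      have hmaps : Set.MapsTo φ NL NL := fun u hu =>
        ⟨(hφ u hu.2).1.trans hu.1, (hφ u hu.2).2.1⟩
      have hinj : Set.InjOn φ NL := by
        intro u hu u' hu' e
        have e1 := (hφ u hu.2).2.2 1
        have e2 := (hφ u' hu'.2).2.2 1
        rw [e, ← e2, pow_one, pow_one] at e1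
        exact pr_injective (g.injective e1)
      have hbij := (hNL.injOn_iff_bijOn_of_mapsTo hmaps).1 hinj
      obtain ⟨u, hu, hφu⟩ := hbij.surjOn (show v ∈ NL from ⟨rfl, hv⟩)
      refine ⟨u, hu.1, hu.2, ?_⟩
      intro i
      rw [Equiv.Perm.inv_eq_iff_eq, ← hφu]
      exact ((hφ u hu.2).2.2 i).symm
  -- bounded orbits along periodic paths
  have hper' : ∀ γ' ∈ L.range, ∀ (p : ℤ → FreeGroup Q) (t : ℕ), 0 < t →
      (∀ i, 0 ≤ i → Adj (p i) (p (i + 1))) → (∀ i, 0 ≤ i → γ' • p i = p (i + t)) →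
      ∃ N : ℕ, ∀ l : ℕ, (Fx Γ p 0 l).relIndex (stabilizer Γ (p 0)) ≤ N := by
    rintro _ ⟨g0, rfl⟩ p t ht hp hpt
    obtain ⟨z, _, hz⟩ := hword p hp 0 t
    simp only [Nat.cast_zero, zero_add] at hz
    have hpj : ∀ j : ℕ, p (j * t) = p 0 * pr z ^ j := by
      intro j
      induction j with
      | zero => simp
      | succ j ih =>
        have h1 := hpt (j * t) (by positivity)
        have h2 := hpt 0 le_rfl
        rw [hL, zero_add, hz] at h2
        rw [show ((j + 1 : ℕ) : ℤ) * t = j * t + t by push_cast; ring, ← h1, hL, ih,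
          ← mul_assoc, h2, pow_succ', mul_assoc]
    obtain ⟨r, hr, hzr⟩ := isOfFinOrder_iff_pow_eq_one.1 (hper z)
    have hvpow : ∀ j : ℕ, wf f (List.replicate j z).flatten = wf f z ^ j := by
      intro j
      induction j with
      | zero => rfl
      | succ j ih =>
        rw [List.replicate_succ, List.flatten_cons, D_wf_append, ih, pow_succ]
    set v := (List.replicate r z).flatten with hv
    have hv1 : wf f v = 1 := by rw [hv, hvpow, hzr]
    have hprv : pr v = pr z ^ r := pr_flatten r z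
    have hpv : ∀ j : ℕ, p ((j * (r * t) : ℕ) : ℤ) = p 0 * pr v ^ j := by
      intro j
      have := hpj (j * r)
      rw [hprv, ← pow_mul, mul_comm r j, ← this]
      congr 1
      push_cast
      ring
    have hpp : ∀ b, Path Adj p 0 b := fun b i hi _ => hp i hi
    let K : Subgroup Γ := stabilizer Γ (p 0) ⊓ stabilizer Γ (p ((r * t : ℕ) : ℤ))
    have hK : K.relIndex (stabilizer Γ (p 0)) ≠ 0 := by
      rw [Subgroup.inf_relIndex_left]
      exact HG.stab_path hpp 0 _ le_rfl (by positivity)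
    refine ⟨K.relIndex (stabilizer Γ (p 0)), fun l => Subgroup.relIndex_le_of_le_left ?_ hK⟩
    intro g hg
    have hg0 : g • p 0 = p 0 := hg.1
    have hg1 : g • p ((r * t : ℕ) : ℤ) = p ((r * t : ℕ) : ℤ) := hg.2
    -- conjugate to the root
    set h : Γ := (L (p 0))⁻¹ * g * L (p 0) with hh
    have hh1 : (h : Equiv.Perm (FreeGroup Q)) 1 = 1 := by
      show h • (1 : FreeGroup Q) = 1
      rw [hh, mul_smul, mul_smul, hL, mul_one, hg0, hLi, inv_mul_cancel]
    obtain ⟨v', _, _, hv'⟩ := hP h (hΓ1 h h.2 hh1) v hv1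
    have hgw : ∀ w, g • (p 0 * w) = p 0 * (h • w) := by
      intro w
      rw [hh, mul_smul, mul_smul, hL, hLi, mul_inv_cancel_left]
    have hhv : ∀ w, h • w = (h : Equiv.Perm (FreeGroup Q)) w := fun w => rfl
    have hvv : v' = v := by
      have h1 := hv' 1
      rw [pow_one, pow_one, ← hhv] at h1
      have h2 := hgw (pr v)
      have h3 := hpv 1
      rw [pow_one, one_mul] at h3
      rw [← h3, hg1, h1, h3] at h2
      exact (pr_injective (mul_left_cancel h2)).symm
    have hfix : ∀ j : ℕ, g • p ((j * (r * t) : ℕ) : ℤ) = p ((j * (r * t) : ℕ) : ℤ) := by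
      intro j
      rw [hpv, hgw, hhv, hv', hvv]
    intro i hi hil
    lift i to ℕ using hi
    have hrt : 1 ≤ r * t := Nat.mul_pos hr ht
    have hil' : i ≤ l * (r * t) := by
      have h1 : i ≤ l := by exact_mod_cast hil
      calc i ≤ l * 1 := by omega
        _ ≤ l * (r * t) := Nat.mul_le_mul_left _ hrt
    refine hprefix p hp g i (l * (r * t) - i) hg0 ?_
    have e : (i : ℤ) + ((l * (r * t) - i : ℕ) : ℤ) = ((l * (r * t) : ℕ) : ℤ) := by
      rw [Nat.cast_sub hil']
      ring
    rw [e]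
    exact hfix l
  obtain ⟨D, hD1, hD2, hD3⟩ := graph_thm (Fintype.card Q) hn Adj hAdj hout hin L.range hT hbig
    hper' (1 : FreeGroup Q)
  -- reachable vertices
  have hreach : ∀ w : List Q, Relation.ReflTransGen Adj 1 (pr w) := by
    intro w
    induction w using List.reverseRecOn with
    | nil => exact Relation.ReflTransGen.refl
    | append_singleton w q ih =>
      refine ih.tail ⟨q, ?_⟩
      rw [pr_append, pr_cons, pr_nil, mul_one]
  have hGu : ∀ u : List X, ∃ g : Γ, g • (1 : FreeGroup Q) = 1 ∧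
      ∀ w, g • pr w = pr (dacts δ ρ u w) := by
    intro u
    induction u with
    | nil => exact ⟨1, one_smul _ _, fun w => one_smul _ _⟩
    | cons x u ih =>
      obtain ⟨g, hg1, hg⟩ := ih
      refine ⟨g * ⟨γ x, hγΓ x⟩, ?_, ?_⟩
      · rw [mul_smul]
        have : (⟨γ x, hγΓ x⟩ : Γ) • (1 : FreeGroup Q) = 1 := hγ1 x
        rw [this, hg1]
      · intro w
        rw [mul_smul]
        have : (⟨γ x, hγΓ x⟩ : Γ) • pr w = pr (dact δ ρ x w) := hγpr w x
        rw [this, hg]
        rfl
  choose Gu hGu1 hGu using hGu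
  have hidx : (D.subgroupOf (stabilizer Γ (1 : FreeGroup Q))).index ≠ 0 := hD2
  have hfinq : Finite (stabilizer Γ (1 : FreeGroup Q) ⧸
      D.subgroupOf (stabilizer Γ (1 : FreeGroup Q))) :=
    (Subgroup.fintypeOfIndexNeZero hidx).finite
  let Φ : List X → stabilizer Γ (1 : FreeGroup Q) ⧸
      D.subgroupOf (stabilizer Γ (1 : FreeGroup Q)) :=
    fun u => QuotientGroup.mk ⟨Gu u, hGu1 u⟩
  have hΦ : ∀ u u', Φ u = Φ u' → dacts δ ρ u = dacts δ ρ u' := by
    intro u u' e
    have h1 := QuotientGroup.eq.1 e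
    rw [Subgroup.mem_subgroupOf] at h1
    funext w
    have h2 := hD3 (pr w) (hreach w) _ h1
    have h3 : ((Gu u)⁻¹ * Gu u') • pr w = pr w := h2
    rw [mul_smul, inv_smul_eq_iff, hGu, hGu] at h3
    exact (pr_injective h3).symm
  have : Finite (Set.range (fun u : List X => dacts δ ρ u)) := by
    refine Finite.of_injective (fun a => Φ a.2.choose) ?_
    intro a b e
    have h1 := hΦ _ _ e
    have h2 := a.2.choose_spec
    have h3 := b.2.choose_spec
    apply Subtype.ext
    rw [← h2, ← h3]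
    exact h1
  exact this

/-- THEOREM T. -/
theorem finite_of_periodic [Fintype Q] [Fintype X] [DecidableEq Q] [DecidableEq X]
    (δ : Q → X → Q) (ρ : Q → X → X) (hn : 8 ≤ Fintype.card Q)
    (hρ : ∀ q, Function.Bijective (ρ q)) (hδ : ∀ x, Function.Bijective (fun q => δ q x))
    (hF : alternatingGroup Q ≤ Subgroup.closure {σ : Equiv.Perm Q | ∃ x, ∀ q, σ q = δ q x})
    (f : Q → Equiv.Perm (List X)) (hf0 : ∀ q, f q [] = [])
    (hf : ∀ q x w, f q (x :: w) = ρ q x :: f (δ q x) w)
    (hper : ∀ v : List Q, IsOfFinOrder (wf f v)) :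
    ((Subgroup.closure (Set.range f) : Set (Equiv.Perm (List X)))).Finite := by
  classical
  have hconn : ∀ q q' : Q, ∃ u : List X, dacts δ ρ u [q] = [q'] := by
    intro q q'
    by_cases hqq : q = q'
    · exact ⟨[], by rw [hqq]; rfl⟩
    · obtain ⟨q'', _, h1, h2, _⟩ := exists_fourth (S := (Set.univ : Set Q))
        (by rw [Set.ncard_univ, Nat.card_eq_fintype_card]; omega) q q' q'
      obtain ⟨u, hu⟩ := closure_dacts δ ρ _ (hF (three_cycle_mem hqq h2.symm))
      refine ⟨u, ?_⟩
      rw [hu, Equiv.Perm.mul_apply, Equiv.swap_apply_of_ne_of_ne hqq h1.symm,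
        Equiv.swap_apply_left]
  have hne : Nonempty Q := Fintype.card_pos_iff.1 (by omega)
  obtain ⟨q0⟩ := hne
  have hbi : Function.Bijective (fun a : Q × X => (δ a.1 a.2, ρ a.1 a.2)) := by
    obtain ⟨r, hr, hr1⟩ := isOfFinOrder_iff_pow_eq_one.1 (hper [q0])
    have hpow : ∀ j : ℕ, wf f (List.replicate j q0) = wf f [q0] ^ j := by
      intro j
      induction j with
      | zero => rfl
      | succ j ih =>
        rw [List.replicate_succ, pow_succ, ← ih]
        rfl
    refine bireversible_of_trivial_word δ ρ f hf0 hf hρ hδ hconn (List.replicate r q0) ?_ ?_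
    · intro h
      rw [List.replicate_eq_nil_iff] at h
      omega
    · rw [hpow, hr1]
  exact finite_of_dual_finite δ ρ f hf0 hf
    (dual_finite_of_periodic δ ρ hn hρ hδ hbi hF f hf hper)

end trans

end Pool.Agent.Lib_helper84.BT
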