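import Pool.Agent.Lib_helper37.BT_P
import Pool.Agent.Lib_helper54.BT_P3

set_option autoImplicit false

/-! The facts on permutation groups which are used (helper37: `BT_P`, helper54: `BT_P3`). -/
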