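import Mathlib

set_option autoImplicit false

namespace Pool.Agent.Lib_helper84.BT

/-- the dual action of a letter on words of states -/
def dact {Q X : Type*} (δ : Q → X → Q) (ρ : Q → X → X) : X → List Q → List Q
  | _, [] => []
  | x, q :: w => δ q x :: dact δ ρ (ρ q x) w

/-- the letter that comes out after passing the word of states `v` -/
def pass {Q X : Type*} (ρ : Q → X → X) : List Q → X → X
  | [], x => x
  | q :: v, x => pass ρ v (ρ q x)

/-- the dual action of a word of letters (first letter first) -/
def dacts {Q X : Type*} (δ : Q → X → Q) (ρ : Q → X → X) : List X → List Q → List Q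
  | [], w => w
  | x :: u, w => dacts δ ρ u (dact δ ρ x w)

/-- the permutation of `List X` given by a word of states (first state first) -/
def wf {Q X : Type*} (f : Q → Equiv.Perm (List X)) : List Q → Equiv.Perm (List X)
  | [] => 1
  | q :: v => wf f v * f q

end Pool.Agent.Lib_helper84.BT
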